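import Mathlib

/-!
# Sequences with vanishing differences in torsion-free commutative groups
-/

set_option autoImplicit false

open Finset

namespace Pool.Agent.V5helper56.OK

/-- A sequence in a torsion-free commutative group whose `M`-th differences vanish and which has
`M` zeros is zero. -/
theorem newton_zero {A : Type*} [AddCommGroup A]
    (hA : ∀ (k : ℤ) (a : A), k ≠ 0 → k • a = 0 → a = 0) {M : ℕ} {f : ℕ → A}
    (hf : (fwdDiff 1)^[M] f = 0) {E : Finset ℕ} (hE : M ≤ E.card) (h0 : ∀ n ∈ E, f n = 0)
    (n : ℕ) : f n = 0 := by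
  classical
  set a : ℕ → A := fun k => ((fwdDiff 1)^[k] f) 0 with ha
  have ha0 : ∀ k, M ≤ k → a k = 0 := by
    intro k hk
    obtain ⟨j, rfl⟩ := Nat.exists_eq_add_of_le hk
    have h1 : ∀ j : ℕ, (fwdDiff 1)^[M + j] f = 0 := by
      intro j
      induction j with
      | zero => exact hf
      | succ j ih =>
        rw [← add_assoc, Function.iterate_succ_apply', ih]
        funext x
        simp [fwdDiff]
    rw [ha]
    show ((fwdDiff 1)^[M + j] f) 0 = 0
    rw [h1 j]
    rfl
  have hnewton : ∀ n : ℕ, f n = ∑ k : Fin M, n.choose k • a k := by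
    intro n
    have h1 := shift_eq_sum_fwdDiff_iter 1 f n 0
    rw [zero_add, smul_eq_mul, mul_one] at h1
    rw [h1, Fin.sum_univ_eq_sum_range (fun k => n.choose k • a k) M]
    have h2 : ∀ k, k ∉ range (n + 1) → n.choose k • a k = 0 := fun k hk => by
      rw [mem_range, not_lt] at hk
      rw [Nat.choose_eq_zero_of_lt (by omega), zero_smul]
    have h3 : ∀ k, k ∉ range M → n.choose k • a k = 0 := fun k hk => by
      rw [mem_range, not_lt] at hk
      rw [ha0 k hk, smul_zero]
    have h4 : ∑ k ∈ range (n + 1), n.choose k • a k =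
        ∑ k ∈ range (n + 1) ∪ range M, n.choose k • a k :=
      sum_subset subset_union_left fun k _ hk => h2 k hk
    have h5 : ∑ k ∈ range M, n.choose k • a k =
        ∑ k ∈ range (n + 1) ∪ range M, n.choose k • a k :=
      sum_subset subset_union_right fun k _ hk => h3 k hk
    exact h4.trans h5.symm
  let v : Fin M → ℕ := fun i => E.orderEmbOfFin rfl (Fin.castLE hE i)
  have hvE : ∀ i, v i ∈ E := fun i => Finset.orderEmbOfFin_mem E rfl _
  have hv : Function.Injective fun i => (v i : ℤ) := by
    intro i j hij
    have h1 : v i = v j := Int.natCast_inj.1 hij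
    have h2 := (E.orderEmbOfFin rfl).injective h1
    exact Fin.castLE_injective hE h2
  let D : Matrix (Fin M) (Fin M) ℤ :=
    Matrix.of fun i j => (descPochhammer ℤ j).eval (v i : ℤ)
  have hdet : D.det ≠ 0 := by
    have h1 := Matrix.det_eval_matrixOfPolynomials_eq_det_vandermonde (fun i => (v i : ℤ))
      (fun j : Fin M => descPochhammer ℤ j) (fun j => descPochhammer_natDegree ℤ j)
      (fun j => monic_descPochhammer ℤ j)
    rw [show D.det = _ from h1.symm, Matrix.det_vandermonde_ne_zero_iff]
    exact hv
  let b : Fin M → A := fun k => (M.factorial / (k : ℕ).factorial) • a k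
  have hfac : ∀ k : Fin M, (k : ℕ).factorial ∣ M.factorial := fun k =>
    Nat.factorial_dvd_factorial k.2.le
  have hD : ∀ i, ∑ k, D i k • b k = 0 := by
    intro i
    have h1 : ∀ k : Fin M, D i k • b k = M.factorial • ((v i).choose k • a k) := by
      intro k
      show (descPochhammer ℤ k).eval (v i : ℤ) • ((M.factorial / (k : ℕ).factorial) • a k) = _
      rw [descPochhammer_eval_eq_descFactorial, Nat.descFactorial_eq_factorial_mul_choose]
      rw [natCast_zsmul, smul_smul, smul_smul]
      congr 1
      rw [mul_comm (k : ℕ).factorial, mul_assoc, Nat.mul_div_cancel' (hfac k), mul_comm]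
    rw [Finset.sum_congr rfl fun k _ => h1 k, ← Finset.smul_sum, ← hnewton, h0 _ (hvE i),
      smul_zero]
  have hb : ∀ k, b k = 0 := by
    intro k
    refine hA D.det _ hdet ?_
    have h1 : ∑ j, (D.adjugate * D) k j • b j = D.det • b k := by
      rw [Matrix.adjugate_mul]
      rw [Finset.sum_eq_single k]
      · simp
      · intro j _ hj
        simp [Matrix.smul_apply, Matrix.one_apply_ne hj.symm]
      · intro h
        exact absurd (Finset.mem_univ k) h
    rw [← h1]
    have h2 : ∀ j, (D.adjugate * D) k j • b j = ∑ i, D.adjugate k i • (D i j • b j) := by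
      intro j
      rw [Matrix.mul_apply, Finset.sum_smul]
      refine Finset.sum_congr rfl fun i _ => ?_
      rw [mul_smul]
    rw [Finset.sum_congr rfl fun j _ => h2 j, Finset.sum_comm]
    refine Finset.sum_eq_zero fun i _ => ?_
    rw [← Finset.smul_sum, hD i, smul_zero]
  have hak : ∀ k : Fin M, a k = 0 := by
    intro k
    refine hA ((M.factorial / (k : ℕ).factorial : ℕ) : ℤ) _ ?_ ?_
    · have h1 : 0 < M.factorial / (k : ℕ).factorial :=
        Nat.div_pos (Nat.le_of_dvd (Nat.factorial_pos _) (hfac k)) (Nat.factorial_pos _)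
      exact_mod_cast h1.ne'
    · rw [natCast_zsmul]
      exact hb k
  rw [hnewton n]
  exact Finset.sum_eq_zero fun k _ => by rw [hak k, smul_zero]

end Pool.Agent.V5helper56.OK
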