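import Pool.Agent.V5helper56.OK.Dens

/-!
# The base is characteristic: assembly for sequences with rare coincidences
-/

set_option autoImplicit false
set_option linter.unusedSectionVars false

open MeasureTheory Filter Topology
open scoped ENNReal

noncomputable section

namespace Pool.Agent.V5helper56.OK

open Pool.Agent.TH784.KE (cm Flow cm_mul meas_shift Base base_le CE prod_abs_le exists_CE Van
  int_abs_le_norm)
open Pool.Agent.TH739.PA (av avr sq mx two_sided Icc_card mem_sq avr_mono avr_abs avr_add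
  avr_nonneg avr_mul av_add av_mul av_sub av_norm av_ofReal closed_slot Cls_zero Good BM_add
  BM_smul avr_const_le)
open Pool.Agent.W761.Gauss (BM)

variable {X : Type} {mA mY mX : MeasurableSpace X} {μ : Measure X} [IsProbabilityMeasure μ]
variable {G Γ : Type*} [Group G] [Group Γ] [LinearOrder Γ] [MulLeftMono Γ] [MulRightMono Γ]
variable {Φ : G →* Equiv.Perm X} {π : G →* Γ} {e : G}
variable {J : Type*} [DecidableEq J] [Fintype J]

theorem av_sum (s : Finset ℤ) {ι : Type*} (t : Finset ι) (a : ι → ℤ → ℂ) :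
    av s (fun m => ∑ i ∈ t, a i m) = ∑ i ∈ t, av s (a i) := by
  unfold Pool.Agent.TH739.PA.av
  rw [Finset.sum_comm, Finset.mul_sum]

/-- **Products of centred functions.** -/
theorem centred (hFl : Flow μ Φ) (hA : OFilt mX mA Φ π) (hY : Base mY mA Φ)
    (he : IsLeast {g : Γ | 1 < g} (π e)) (hS : Spn μ mA mY Φ e) {g : J → ℤ → G} (hg : Rare π g)
    {V : Finset J} (hV : V.Nonempty) {W : ℤ → X → ℂ} (hW : ∀ n, Measurable[mY] (W n))
    (hWb : ∃ C : ℝ, ∀ n x, ‖W n x‖ ≤ C) {F : J → X → ℂ} (hF : ∀ v, BM (F v))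
    (hF0 : ∀ v, ∀ B : Set X, MeasurableSet[mY] B → ∫ x in B, F v x ∂μ = 0)
    (hslot : ∀ v, Good atTop BX μ (fun n x => Φ (g v n) x) ∨
      ∀ ε : ℝ, 0 < ε → ∃ h ∈ SpS μ mA Φ e, ∀ᵐ x ∂μ, ‖F v x - h x‖ ≤ ε) :
    PZ μ Φ g V W F := by
  refine PZ_ext (mA := mA) (e := e) (fun v => {h : X → ℂ | BM h ∧
      (∀ B : Set X, MeasurableSet[mY] B → ∫ x in B, h x ∂μ = 0) ∧
      (Good atTop BX μ (fun n x => Φ (g v n) x) ∨
        ∀ ε : ℝ, 0 < ε → ∃ h' ∈ SpS μ mA Φ e, ∀ᵐ x ∂μ, ‖h x - h' x‖ ≤ ε)})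
    (fun v _ h hh => hh.1) (fun s hs => ?_) (fun F' k hk hF' H h hh => ?_)
    (fun F' hF' => PZ_base hFl hA hY he hV hg hW hWb hF') F
    (fun v _ => ⟨hF v, hF0 v, hslot v⟩)
  · exact SpS_BM (π := π) hFl hA (Submodule.subset_span ⟨s, hs, rfl⟩)
  · obtain ⟨hB, h0, hgood | hu⟩ := hh
    · refine PZ_mean hFl hWb hF' hk hgood hB fun ε hε => ?_
      obtain ⟨h', hh', hi⟩ := dense_complex hFl hA hY he hS hB h0 hε
      exact ⟨h', SpS_BM (π := π) hFl hA hh', hi, PZ_span hk H hh'⟩
    · refine PZ_unif hFl hWb hF' hk fun ε hε => ?_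
      obtain ⟨h', hh', hi⟩ := hu ε hε
      exact ⟨h', hi, PZ_span hk H hh'⟩

/-- **The base is characteristic.** -/
theorem char_rare (hFl : Flow μ Φ) (hA : OFilt mX mA Φ π) (hY : Base mY mA Φ)
    (he : IsLeast {g : Γ | 1 < g} (π e)) (hS : Spn μ mA mY Φ e) {g : J → ℤ → G} (hg : Rare π g)
    {W : ℤ → X → ℂ} (hW : ∀ n, Measurable[mY] (W n)) (hWb : ∃ C : ℝ, ∀ n x, ‖W n x‖ ≤ C)
    {f ef : J → X → ℂ} (hf : ∀ v, BM (f v)) (hef : ∀ v, BM (ef v))
    (hefY : ∀ v, Measurable[mY] (ef v))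
    (hfe : ∀ v, ∀ B : Set X, MeasurableSet[mY] B → ∫ x in B, (f v x - ef v x) ∂μ = 0)
    (hslot : ∀ v, Good atTop BX μ (fun n x => Φ (g v n) x) ∨
      ∀ ε : ℝ, 0 < ε → ∃ h ∈ SpS μ mA Φ e, ∀ᵐ x ∂μ, ‖(f v x - ef v x) - h x‖ ≤ ε) :
    ∀ᵐ x ∂μ, Tendsto (fun N : ℕ => av (BX N) fun n => W n x * (∏ v, f v (Φ (g v n) x) -
      ∏ v, ef v (Φ (g v n) x))) atTop (𝓝 0) := by
  classical
  have hBM : ∀ v, BM (fun x => f v x - ef v x) := by
    intro v
    obtain ⟨m₁, C₁, b₁⟩ := hf v
    obtain ⟨m₂, C₂, b₂⟩ := hef v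
    exact ⟨m₁.sub m₂, C₁ + C₂, fun x => (norm_sub_le _ _).trans (add_le_add (b₁ x) (b₂ x))⟩
  have key : ∀ t : Finset J, t.Nonempty → ∀ᵐ x ∂μ, Tendsto (fun N : ℕ => av (BX N) fun n =>
      (∏ v ∈ t, (f v (Φ (g v n) x) - ef v (Φ (g v n) x))) *
        (W n x * ∏ v ∈ Finset.univ \ t, ef v (Φ (g v n) x))) atTop (𝓝 0) := by
    intro t ht
    have h1 := centred hFl hA hY he hS hg ht
      (W := fun n x => W n x * ∏ v ∈ Finset.univ \ t, ef v (Φ (g v n) x))
      (fun n => (hW n).mul (Finset.measurable_fun_prod _ fun v _ =>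
        (hefY v).comp (hY.inv _))) (by
        obtain ⟨C, hC⟩ := hWb
        choose hm C' hC' using hef
        refine ⟨|C| * ∏ v ∈ Finset.univ \ t, |C' v|, fun n x => ?_⟩
        rw [norm_mul, norm_prod]
        refine mul_le_mul ((hC n x).trans (le_abs_self _)) ?_
          (Finset.prod_nonneg fun _ _ => norm_nonneg _) (abs_nonneg _)
        exact Finset.prod_le_prod (fun _ _ => norm_nonneg _) fun v _ =>
          (hC' v _).trans (le_abs_self _))
      (F := fun v x => f v x - ef v x) hBM hfe hslot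
    exact h1
  have hall : ∀ᵐ x ∂μ, ∀ t : Finset J, t.Nonempty → Tendsto (fun N : ℕ => av (BX N) fun n =>
      (∏ v ∈ t, (f v (Φ (g v n) x) - ef v (Φ (g v n) x))) *
        (W n x * ∏ v ∈ Finset.univ \ t, ef v (Φ (g v n) x))) atTop (𝓝 0) := by
    rw [ae_all_iff]
    intro t
    by_cases ht : t.Nonempty
    · filter_upwards [key t ht] with x hx _
      exact hx
    · exact Eventually.of_forall fun x h => absurd h ht
  filter_upwards [hall] with x hx
  have hsum := tendsto_finsetSum ((Finset.univ : Finset J).powerset.erase ∅) fun t ht =>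
    hx t (Finset.nonempty_iff_ne_empty.2 (Finset.ne_of_mem_erase ht))
  rw [Finset.sum_const_zero] at hsum
  refine hsum.congr fun N => ?_
  rw [← av_sum]
  congr 1
  funext n
  have h1 := Finset.prod_add (fun v => f v (Φ (g v n) x) - ef v (Φ (g v n) x))
    (fun v => ef v (Φ (g v n) x)) (Finset.univ : Finset J)
  have h2 : ∏ v, (f v (Φ (g v n) x) - ef v (Φ (g v n) x) + ef v (Φ (g v n) x)) =
      ∏ v, f v (Φ (g v n) x) := Finset.prod_congr rfl fun v _ => by ring
  rw [h2, ← Finset.add_sum_erase _ _ (Finset.empty_mem_powerset _)] at h1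
  rw [h1, Finset.prod_empty, one_mul, Finset.sdiff_empty, add_sub_cancel_left, Finset.mul_sum]
  refine Finset.sum_congr rfl fun t _ => ?_
  ring

/-- innovations: bounded, measurable at the level `a`, with conditional expectation zero at the
preceding level -/
def Inn (μ : Measure X) (mA : MeasurableSpace X) (Φ : G →* Equiv.Perm X) (e : G)
    (h : X → ℂ) : Prop :=
  (∃ C : ℝ, ∀ x, ‖h x‖ ≤ C) ∧ ∃ a : G, Measurable[cm mA Φ a] h ∧
    μ[h | cm mA Φ (e⁻¹ * a)] =ᵐ[μ] 0

theorem van_mul {m : MeasurableSpace X} (hm : m ≤ mX) {s k : X → ℝ} (hs : Measurable[mX] s)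
    (hsb : ∃ C : ℝ, ∀ x, |s x| ≤ C) (hV : Van μ m s) (hk : Measurable[m] k)
    (hD : ∃ D : ℝ, ∀ x, |k x| ≤ D) : ∫ x, s x * k x ∂μ = 0 := by
  obtain ⟨C, hC⟩ := hsb
  obtain ⟨D, hD⟩ := hD
  have hsi : Integrable s μ := Integrable.of_bound hs.aestronglyMeasurable C
    (Eventually.of_forall hC)
  have hkX : Measurable[mX] k := hk.mono hm le_rfl
  have hks : Integrable (fun x => k x * s x) μ :=
    hsi.bdd_mul hkX.aestronglyMeasurable (Eventually.of_forall hD)
  have h0 : (0 : X → ℝ) =ᵐ[μ] μ[s | m] := by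
    refine ae_eq_condExp_of_forall_setIntegral_eq hm hsi (fun B _ _ => integrableOn_zero)
      (fun B hB _ => ?_) stronglyMeasurable_zero.aestronglyMeasurable
    rw [hV B hB]
    simp
  have p1 := condExp_mul_of_stronglyMeasurable_left (μ := μ) hk.stronglyMeasurable hks hsi
  have p2 : ∫ x, (k * s) x ∂μ = ∫ x, (k * μ[s | m]) x ∂μ := by
    rw [← integral_condExp hm]
    exact integral_congr_ae p1
  have p3 : ∫ x, (k * μ[s | m]) x ∂μ = 0 := by
    have : ∫ x, (k * μ[s | m]) x ∂μ = ∫ _x : X, (0 : ℝ) ∂μ := by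
      apply integral_congr_ae
      filter_upwards [h0] with x hx
      rw [Pi.mul_apply, ← hx]
      simp
    rw [this, integral_zero]
  have e1 : (fun x => s x * k x) = k * s := by
    funext x
    rw [Pi.mul_apply, mul_comm]
  rw [e1]
  exact p2.trans p3

theorem inn_SpS (hFl : Flow μ Φ) (hA : OFilt mX mA Φ π) {h : X → ℂ} (hh : Inn μ mA Φ e h) :
    h ∈ SpS μ mA Φ e := by
  obtain ⟨⟨C₀, hC₀⟩, a, hm, h0⟩ := hh
  set C : ℝ := |C₀| + 1 with hC
  have hCpos : 0 < C := by positivity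
  have hCb : ∀ x, ‖h x‖ ≤ C := fun x =>
    ((hC₀ x).trans (le_abs_self _)).trans (by rw [hC]; linarith)
  have hhX : Measurable h := hm.mono (ocm_le hFl hA a) le_rfl
  have hhi : Integrable h μ := Integrable.of_bound hhX.aestronglyMeasurable C
    (Eventually.of_forall hCb)
  have hB0 : ∀ B, MeasurableSet[cm mA Φ (e⁻¹ * a)] B → ∫ x in B, h x ∂μ = 0 := by
    intro B hB
    rw [← setIntegral_condExp (ocm_le hFl hA _) hhi hB]
    have : ∫ x in B, (μ[h | cm mA Φ (e⁻¹ * a)]) x ∂μ = ∫ _x in B, (0 : ℂ) ∂μ := by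
      apply setIntegral_congr_ae (ocm_le hFl hA _ _ hB)
      filter_upwards [h0] with x hx _
      rw [hx]
      rfl
    rw [this]
    simp
  have hre : Stp μ mA Φ e fun x => (h x).re / C := by
    refine ⟨a, (Complex.measurable_re.comp hm).div_const _, fun x => ?_, measurable_const,
      fun x => by simp, fun k hk hD => ?_⟩
    · rw [abs_div, abs_of_pos hCpos, div_le_one hCpos]
      exact (Complex.abs_re_le_norm _).trans (hCb x)
    · refine van_mul (ocm_le hFl hA _) (((Complex.measurable_re.comp hhX).div_const _).sub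
        measurable_const) ⟨1, fun x => ?_⟩ (fun B hB => ?_) hk hD
      · rw [sub_zero, abs_div, abs_of_pos hCpos, div_le_one hCpos]
        exact (Complex.abs_re_le_norm _).trans (hCb x)
      · have h2 : ∫ x in B, (h x).re ∂μ = (∫ x in B, h x ∂μ).re := integral_re hhi.integrableOn
        simp only [sub_zero]
        rw [integral_div, h2, hB0 B hB]
        simp
  have him : Stp μ mA Φ e fun x => (h x).im / C := by
    refine ⟨a, (Complex.measurable_im.comp hm).div_const _, fun x => ?_, measurable_const,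
      fun x => by simp, fun k hk hD => ?_⟩
    · rw [abs_div, abs_of_pos hCpos, div_le_one hCpos]
      exact (Complex.abs_im_le_norm _).trans (hCb x)
    · refine van_mul (ocm_le hFl hA _) (((Complex.measurable_im.comp hhX).div_const _).sub
        measurable_const) ⟨1, fun x => ?_⟩ (fun B hB => ?_) hk hD
      · rw [sub_zero, abs_div, abs_of_pos hCpos, div_le_one hCpos]
        exact (Complex.abs_im_le_norm _).trans (hCb x)
      · have h2 : ∫ x in B, (h x).im ∂μ = (∫ x in B, h x ∂μ).im := integral_im hhi.integrableOn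
        simp only [sub_zero]
        rw [integral_div, h2, hB0 B hB]
        simp
  have e1 : h = (C : ℂ) • (fun x => (((h x).re / C : ℝ) : ℂ)) +
      ((C : ℂ) * Complex.I) • fun x => (((h x).im / C : ℝ) : ℂ) := by
    funext x
    have hC' : (C : ℂ) ≠ 0 := by exact_mod_cast hCpos.ne'
    simp only [Pi.add_apply, Pi.smul_apply, smul_eq_mul]
    push_cast
    field_simp
    exact (Complex.re_add_im (h x)).symm.trans (by ring)
  rw [e1]
  exact add_mem (Submodule.smul_mem _ _ (Submodule.subset_span ⟨_, hre, rfl⟩))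
    (Submodule.smul_mem _ _ (Submodule.subset_span ⟨_, him, rfl⟩))

/-- elements of the span have no expectation on the base -/
theorem SpS_centred (hFl : Flow μ Φ) (hA : OFilt mX mA Φ π) (hY : Base mY mA Φ) {h : X → ℂ}
    (hh : h ∈ SpS μ mA Φ e) : ∀ B : Set X, MeasurableSet[mY] B → ∫ x in B, h x ∂μ = 0 := by
  classical
  intro B hB
  have hBX : MeasurableSet[mX] B := hA.le _ (hY.le _ hB)
  have hkey : BM h ∧ ∫ x in B, h x ∂μ = 0 := by
    unfold SpS at hh
    induction hh using Submodule.span_induction with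
    | mem x hx =>
      refine ⟨SpS_BM (π := π) hFl hA (Submodule.subset_span hx), ?_⟩
      obtain ⟨s, ⟨c, hs, hb, hs0⟩, rfl⟩ := hx
      have h1 := hs0.2.2 (B.indicator fun _ => 1)
        (measurable_const.indicator (base_le hY (e⁻¹ * c) _ hB)) ⟨1, fun x => by
          by_cases hx : x ∈ B <;> simp [hx]⟩
      have e1 : (fun x => (s x - 0) * B.indicator (fun _ => (1 : ℝ)) x) = B.indicator s := by
        funext x
        by_cases hx : x ∈ B <;> simp [hx]
      rw [e1, integral_indicator hBX] at h1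
      have h2 := integral_ofReal (𝕜 := ℂ) (f := s) (μ := μ.restrict B)
      rw [h1] at h2
      exact h2.trans (by simp)
    | zero => exact ⟨⟨measurable_const, 0, fun x => by simp⟩, by simp⟩
    | add x y hx' hy' hx hy =>
      refine ⟨BM_add hx.1 hy.1, ?_⟩
      obtain ⟨⟨hxm, C, hC⟩, hx0⟩ := hx
      obtain ⟨⟨hym, D, hD⟩, hy0⟩ := hy
      have hxi : Integrable x μ := Integrable.of_bound hxm.aestronglyMeasurable C
        (Eventually.of_forall hC)
      have hyi : Integrable y μ := Integrable.of_bound hym.aestronglyMeasurable D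
        (Eventually.of_forall hD)
      have := integral_add hxi.integrableOn hyi.integrableOn (μ := μ.restrict B)
      simp only [Pi.add_apply]
      rw [this, hx0, hy0, add_zero]
    | smul a x hx' hx =>
      refine ⟨BM_smul a hx.1, ?_⟩
      simp only [Pi.smul_apply, smul_eq_mul]
      rw [integral_const_mul, hx.2, mul_zero]
  exact hkey.2

/-- the functions with finitely many innovations -/
def Win (μ : Measure X) (mA mY : MeasurableSpace X) (Φ : G →* Equiv.Perm X) (e : G) :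
    Submodule ℂ (X → ℂ) :=
  Submodule.span ℂ ({h | Inn μ mA Φ e h} ∪ {h | Measurable[mY] h ∧ ∃ C : ℝ, ∀ x, ‖h x‖ ≤ C})

theorem win_dec (hFl : Flow μ Φ) (hA : OFilt mX mA Φ π) {h : X → ℂ}
    (hh : h ∈ Win μ mA mY Φ e) : ∃ y : X → ℂ, Measurable[mY] y ∧ (∃ C : ℝ, ∀ x, ‖y x‖ ≤ C) ∧
      h - y ∈ SpS μ mA Φ e := by
  unfold Win at hh
  induction hh using Submodule.span_induction with
  | mem x hx =>
    rcases hx with hx | ⟨hx, C, hC⟩
    · exact ⟨0, measurable_const, ⟨0, fun x => by simp⟩, by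
        rw [sub_zero]
        exact inn_SpS (π := π) hFl hA hx⟩
    · exact ⟨x, hx, ⟨C, hC⟩, by
        rw [sub_self]
        exact zero_mem _⟩
  | zero => exact ⟨0, measurable_const, ⟨0, fun x => by simp⟩, by
      rw [sub_zero]
      exact zero_mem _⟩
  | add x y _ _ hx hy =>
    obtain ⟨x', hx1, ⟨C, hC⟩, hx3⟩ := hx
    obtain ⟨y', hy1, ⟨D, hD⟩, hy3⟩ := hy
    refine ⟨x' + y', hx1.add hy1, ⟨C + D, fun z =>
      (norm_add_le _ _).trans (add_le_add (hC z) (hD z))⟩, ?_⟩
    have : x + y - (x' + y') = (x - x') + (y - y') := by ring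
    rw [this]
    exact add_mem hx3 hy3
  | smul a x _ hx =>
    obtain ⟨x', hx1, ⟨C, hC⟩, hx3⟩ := hx
    refine ⟨a • x', hx1.const_smul a, ⟨‖a‖ * C, fun z => ?_⟩, ?_⟩
    · rw [Pi.smul_apply, norm_smul]
      exact mul_le_mul_of_nonneg_left (hC z) (norm_nonneg _)
    · rw [← smul_sub]
      exact Submodule.smul_mem _ _ hx3

/-- from the uniform closure of `Win` to centred functions -/
theorem unif_centred (hFl : Flow μ Φ) (hA : OFilt mX mA Φ π) (hY : Base mY mA Φ) {f ef : X → ℂ}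
    (hf : BM f) (hef : BM ef) (hefY : Measurable[mY] ef)
    (hfe : ∀ B : Set X, MeasurableSet[mY] B → ∫ x in B, (f x - ef x) ∂μ = 0)
    (H : ∀ ε : ℝ, 0 < ε → ∃ h ∈ Win μ mA mY Φ e, ∀ᵐ x ∂μ, ‖f x - h x‖ ≤ ε) {ε : ℝ}
    (hε : 0 < ε) : ∃ h ∈ SpS μ mA Φ e, ∀ᵐ x ∂μ, ‖(f x - ef x) - h x‖ ≤ ε := by
  have hYX : mY ≤ mX := hY.le.trans hA.le
  obtain ⟨w, hw, hwf⟩ := H (ε / 2) (half_pos hε)
  obtain ⟨y, hy, ⟨C, hC⟩, hwy⟩ := win_dec (π := π) hFl hA hw
  refine ⟨w - y, hwy, ?_⟩
  obtain ⟨hwym, D, hD⟩ := SpS_BM (π := π) hFl hA hwy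
  obtain ⟨hfm, Cf, hCf⟩ := hf
  obtain ⟨hem, Ce, hCe⟩ := hef
  have hyX : Measurable y := hy.mono hYX le_rfl
  have hyi : Integrable y μ := Integrable.of_bound hyX.aestronglyMeasurable C
    (Eventually.of_forall hC)
  have hfi : Integrable f μ := Integrable.of_bound hfm.aestronglyMeasurable Cf
    (Eventually.of_forall hCf)
  have hei : Integrable ef μ := Integrable.of_bound hem.aestronglyMeasurable Ce
    (Eventually.of_forall hCe)
  have hwyi : Integrable (w - y) μ := Integrable.of_bound hwym.aestronglyMeasurable D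
    (Eventually.of_forall hD)
  have hwi : Integrable w μ := by
    have := hwyi.add hyi
    rwa [sub_add_cancel] at this
  -- conditional expectations
  have h1 : (fun x => ef x - y x) =ᵐ[μ] μ[fun x => f x - w x | mY] := by
    refine ae_eq_condExp_of_forall_setIntegral_eq hYX (hfi.sub hwi)
      (fun B _ _ => (hei.sub hyi).integrableOn) (fun B hB _ => ?_)
      ((hefY.sub hy).stronglyMeasurable.aestronglyMeasurable)
    have h2 := hfe B hB
    have h3 := SpS_centred hFl hA hY hwy B hB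
    simp only [Pi.sub_apply] at h3
    rw [integral_sub hfi.integrableOn hei.integrableOn] at h2
    rw [integral_sub hwi.integrableOn hyi.integrableOn] at h3
    rw [integral_sub hei.integrableOn hyi.integrableOn,
      integral_sub hfi.integrableOn hwi.integrableOn, sub_eq_zero.1 h2, sub_eq_zero.1 h3]
  have h4 : ∀ᵐ x ∂μ, ‖(μ[fun x => f x - w x | mY]) x‖ ≤ ε / 2 :=
    ae_bdd_norm_condExp_of_ae_bdd_norm (μ := μ) (m := mY) (f := fun x => f x - w x) hwf
  filter_upwards [h1, h4, hwf] with x hx1 hx2 hx3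
  have e1 : (f x - ef x) - (w - y) x = (f x - w x) - (ef x - y x) := by
    rw [Pi.sub_apply]
    ring
  rw [e1]
  refine (norm_sub_le _ _).trans ?_
  rw [hx1]
  linarith

end Pool.Agent.V5helper56.OK
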