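import Pool.Agent.V5helper56.OK.Core

/-!
# Convergence to zero for functions with finite windows
-/

set_option autoImplicit false
set_option linter.unusedSectionVars false

open MeasureTheory Filter Topology

noncomputable section

namespace Pool.Agent.V5helper56.OK

open Pool.Agent.TH784.KE (cm Flow cm_mul meas_shift Base base_le CE prod_abs_le)
open Pool.Agent.TH739.PA (av avr sq mx two_sided Icc_card mem_sq avr_mono avr_abs avr_add avr_nonneg)

open Classical in
/-- one if `P` holds, zero otherwise -/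
def ind (P : Prop) : ℝ := if P then 1 else 0

theorem ind_nonneg (P : Prop) : 0 ≤ ind P := by
  unfold ind
  split_ifs <;> norm_num

theorem ind_le (P : Prop) : ind P ≤ 1 := by
  unfold ind
  split_ifs <;> norm_num

theorem ind_of {P : Prop} (h : P) : ind P = 1 := if_pos h

theorem ind_not {P : Prop} (h : ¬ P) : ind P = 0 := if_neg h

/-- coincidences are rare -/
structure Rare {G Γ J : Type*} [Group G] [Group Γ] (π : G →* Γ) (g : J → ℤ → G) : Prop where
  sum : ∀ (i j : J) (γ : Γ), Summable fun p : ℤ × ℤ =>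
    ind (π (g i p.1) = γ * π (g j p.2)) / (1 + mx p) ^ 2
  dens : ∀ (i j : J) (γ : Γ), i ≠ j → Tendsto (fun N : ℕ => avr (Finset.Icc (-(N : ℤ)) N)
    fun n => ind (π (g i n) = γ * π (g j n))) atTop (𝓝 0)

variable {X : Type*} {mA mY mX : MeasurableSpace X} {μ : Measure X} [IsProbabilityMeasure μ]
variable {G Γ : Type*} [Group G] [Group Γ] [LinearOrder Γ] [MulLeftMono Γ] [MulRightMono Γ]
variable {Φ : G →* Equiv.Perm X} {π : G →* Γ} {e : G}
variable {J : Type*} [DecidableEq J]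

theorem coin_iff (a b x y : G) : π (a * x) = π (b * y) ↔ π x = (π a)⁻¹ * π b * π y := by
  rw [map_mul, map_mul, mul_assoc, eq_inv_mul_iff_mul_eq]

open Classical in
theorem XI_err {V : Finset J} (hV : V.Nonempty) {c : J → G} {F : J → X → ℝ} {W : X → ℝ}
    (hF : ∀ w ∈ V, ∀ x, |F w x| ≤ 1) (hW : ∀ x, |W x| ≤ 1) (p : J → G) (x : X) :
    |(∏ w ∈ V, F w (Φ (p w) x)) * W x - XI V Φ π c F W p x| ≤
      ∑ v ∈ V, ∑ w ∈ V.erase v, ind (π (c v * p v) = π (c w * p w)) := by
  unfold XI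
  by_cases htop : ∃ v ∈ V, Top V π (fun w => c w * p w) v
  · rw [if_pos htop, sub_self, abs_zero]
    exact Finset.sum_nonneg fun _ _ => Finset.sum_nonneg fun _ _ => ind_nonneg _
  · rw [if_neg htop, sub_zero, abs_mul]
    have h2 := prod_abs_le (Φ := Φ) (V := V) (F := F) hF p x
    have h4 : |∏ w ∈ V, F w (Φ (p w) x)| * |W x| ≤ 1 := by
      calc _ ≤ (1 : ℝ) * 1 := mul_le_mul h2 (hW x) (abs_nonneg _) zero_le_one
        _ = 1 := one_mul 1
    obtain ⟨v₀, hv₀, hmax⟩ := V.exists_max_image (fun v => π (c v * p v)) hV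
    have hnt : ¬ Top V π (fun w => c w * p w) v₀ := fun h => htop ⟨v₀, hv₀, h⟩
    unfold Top at hnt
    push Not at hnt
    obtain ⟨w, hw, hne, hle⟩ := hnt
    have heq : π (c v₀ * p v₀) = π (c w * p w) := le_antisymm hle (hmax w hw)
    have h7 : (1 : ℝ) ≤ ∑ w ∈ V.erase v₀,
        ind (π (c v₀ * p v₀) = π (c w * p w)) := by
      have h8 := Finset.single_le_sum (s := V.erase v₀)
        (f := fun w => ind (π (c v₀ * p v₀) = π (c w * p w)))
        (fun _ _ => ind_nonneg _) (Finset.mem_erase.2 ⟨hne, hw⟩)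
      exact le_trans (le_of_eq (ind_of heq).symm) h8
    refine h4.trans (h7.trans (Finset.single_le_sum (s := V)
      (f := fun v => ∑ w ∈ V.erase v, ind (π (c v * p v) = π (c w * p w)))
      (fun _ _ => Finset.sum_nonneg fun _ _ => ind_nonneg _) hv₀))

/-- **Core.** -/
theorem core_real (hFl : Flow μ Φ) (hA : OFilt mX mA Φ π) (hY : Base mY mA Φ)
    (he : IsLeast {g : Γ | 1 < g} (π e)) {V : Finset J} (hV : V.Nonempty) {c : J → G}
    {F : J → X → ℝ} (hF : ∀ w ∈ V, Measurable[cm mA Φ (c w)] (F w))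
    (hF1 : ∀ w ∈ V, ∀ x, |F w x| ≤ 1)
    (hF0 : ∀ w ∈ V, CE μ (cm mA Φ (e⁻¹ * c w)) (F w) fun _ => 0)
    {W : ℤ → X → ℝ} (hW : ∀ n, Measurable[mY] (W n)) (hW1 : ∀ n x, |W n x| ≤ 1)
    {g : J → ℤ → G} (hg : Rare π g) :
    ∀ᵐ x ∂μ, Tendsto (fun N : ℕ => avr (Finset.Icc (-(N : ℤ)) N) fun n =>
      (∏ v ∈ V, F v (Φ (g v n) x)) * W n x) atTop (𝓝 0) := by
  classical
  let ξ : ℤ → X → ℝ := fun n => XI V Φ π c F (W n) (fun v => g v n)
  let q : ℤ × ℤ → ℝ := fun p => ∑ v ∈ V, ∑ w ∈ V,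
    ind (π (c v * g v p.1) = π (c w * g w p.2))
  have hq : ∀ p, 0 ≤ q p := fun p =>
    Finset.sum_nonneg fun _ _ => Finset.sum_nonneg fun _ _ => ind_nonneg _
  have hs : Summable fun p => q p / (1 + mx p) ^ 2 := by
    have h1 := summable_sum (s := V) fun v _ => summable_sum (s := V) fun w _ =>
      hg.sum v w ((π (c v))⁻¹ * π (c w))
    refine h1.congr fun p => ?_
    simp only [q]
    rw [Finset.sum_div]
    refine Finset.sum_congr rfl fun v _ => ?_
    rw [Finset.sum_div]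
    refine Finset.sum_congr rfl fun w _ => ?_
    congr 1
    simp only [coin_iff]
  have hξm : ∀ n, Measurable (ξ n) := fun n => XI_meas hFl hA hY hF (hW n) _
  have hξ1 : ∀ n x, |ξ n x| ≤ 1 := fun n x => XI_abs hF1 (hW1 n) _ x
  have hint : ∀ n n', Integrable (fun x => ξ n x * ξ n' x) μ := fun n n' =>
    Integrable.of_bound ((hξm n).mul (hξm n')).aestronglyMeasurable 1
      (Eventually.of_forall fun x => by
        rw [Real.norm_eq_abs, abs_mul]
        calc _ ≤ (1 : ℝ) * 1 := mul_le_mul (hξ1 n x) (hξ1 n' x) (abs_nonneg _) zero_le_one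
          _ = 1 := one_mul 1)
  have hpair : ∀ p : ℤ × ℤ, ∫ x, ξ p.1 x * ξ p.2 x ∂μ ≤ q p := by
    intro p
    by_cases h : ∃ v ∈ V, ∃ w ∈ V, π (c v * g v p.1) = π (c w * g w p.2)
    · obtain ⟨v, hv, w, hw, h⟩ := h
      have h1 : ∫ x, ξ p.1 x * ξ p.2 x ∂μ ≤ 1 := by
        have := integral_mono (hint p.1 p.2) (integrable_const (1 : ℝ)) (fun x => by
          refine (le_abs_self _).trans ?_
          rw [abs_mul]
          calc _ ≤ (1 : ℝ) * 1 :=
                mul_le_mul (hξ1 p.1 x) (hξ1 p.2 x) (abs_nonneg _) zero_le_one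
            _ = 1 := one_mul 1)
        simpa using this
      refine h1.trans ?_
      have h2 : (1 : ℝ) ≤ ∑ w ∈ V,
          ind (π (c v * g v p.1) = π (c w * g w p.2)) := by
        have h8 := Finset.single_le_sum (s := V)
          (f := fun w => ind (π (c v * g v p.1) = π (c w * g w p.2)))
          (fun _ _ => ind_nonneg _) hw
        exact le_trans (le_of_eq (ind_of h).symm) h8
      exact h2.trans (Finset.single_le_sum (s := V)
        (f := fun v => ∑ w ∈ V, ind (π (c v * g v p.1) = π (c w * g w p.2)))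
        (fun _ _ => Finset.sum_nonneg fun _ _ => ind_nonneg _) hv)
    · push Not at h
      have h1 := XI_orth hFl hA hY he hF hF1 hF0 (hW p.1) (hW1 p.1) (hW p.2) (hW1 p.2)
        (p := fun v => g v p.1) (p' := fun v => g v p.2) h
      have h2 : ∫ x, ξ p.1 x * ξ p.2 x ∂μ = 0 := h1
      rw [h2]
      exact hq p
  have hvar : ∀ N : ℕ, ∫ x, (∑ n ∈ Finset.Icc (-(N : ℤ)) N, ξ n x) ^ 2 ∂μ ≤
      ∑ p ∈ sq N, q p := by
    intro N
    have e1 : ∀ x, (∑ n ∈ Finset.Icc (-(N : ℤ)) N, ξ n x) ^ 2 =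
        ∑ p ∈ sq N, ξ p.1 x * ξ p.2 x := by
      intro x
      rw [pow_two, Finset.sum_mul_sum]
      unfold Pool.Agent.TH739.PA.sq
      rw [Finset.sum_product]
    simp only [e1]
    rw [integral_finsetSum _ fun p _ => hint p.1 p.2]
    exact Finset.sum_le_sum fun p _ => hpair p
  have hmain := two_sided hξm hξ1 hq hs hvar
  have hclose : Tendsto (fun N : ℕ => ∑ v ∈ V, ∑ w ∈ V.erase v, avr (Finset.Icc (-(N : ℤ)) N)
      fun n => ind (π (c v * g v n) = π (c w * g w n))) atTop (𝓝 0) := by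
    have h5 : Tendsto (fun N : ℕ => ∑ v ∈ V, ∑ w ∈ V.erase v, avr (Finset.Icc (-(N : ℤ)) N)
        fun n => ind (π (c v * g v n) = π (c w * g w n))) atTop
        (𝓝 (∑ v ∈ V, ∑ _w ∈ V.erase v, (0 : ℝ))) := by
      refine tendsto_finsetSum _ fun v hv => tendsto_finsetSum _ fun w hw => ?_
      have h6 := hg.dens v w ((π (c v))⁻¹ * π (c w)) (Finset.ne_of_mem_erase hw).symm
      simp only [coin_iff]
      exact h6
    rw [Finset.sum_eq_zero fun v _ => Finset.sum_const_zero] at h5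
    exact h5
  filter_upwards [hmain] with x hx
  have h9 : Tendsto (fun N : ℕ => avr (Finset.Icc (-(N : ℤ)) N) fun n =>
      ((∏ v ∈ V, F v (Φ (g v n) x)) * W n x - ξ n x)) atTop (𝓝 0) := by
    rw [tendsto_zero_iff_abs_tendsto_zero]
    refine squeeze_zero (fun N => abs_nonneg _) (fun N => ?_) hclose
    refine (avr_abs _ _).trans ?_
    refine (avr_mono fun n _ => XI_err hV hF1 (hW1 n) (fun v => g v n) x).trans (le_of_eq ?_)
    unfold Pool.Agent.TH739.PA.avr
    rw [Finset.sum_comm, Finset.mul_sum]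
    refine Finset.sum_congr rfl fun v _ => ?_
    rw [Finset.sum_comm, Finset.mul_sum]
  have h10 := h9.add hx
  rw [add_zero] at h10
  refine h10.congr fun N => ?_
  rw [← avr_add]
  congr 1
  funext n
  ring

end Pool.Agent.V5helper56.OK
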