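import Pool.Agent.TH784.KE.One
import Pool.Agent.TH739.PA.Act

/-!
# Kolmogorov filtrations over discretely ordered groups

`π : G →* Γ` is a homomorphism to a group with a bi-invariant total order, `e : G` is such that `π e`
is the least element `> 1`.
-/

set_option autoImplicit false
set_option linter.unusedSectionVars false

open MeasureTheory Filter Topology

noncomputable section

namespace Pool.Agent.V5helper56.OK

open Pool.Agent.TH784.KE (cm Flow cm_mul meas_shift Base base_le CE prod_abs_le)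
open Pool.Agent.TH739.PA (av avr sq mx two_sided Icc_card mem_sq)

/-- `mA` decreases under the maps `Φ a` with `π a ≤ 1` -/
structure OFilt {X G Γ : Type*} [Group G] [Group Γ] [LinearOrder Γ] (mX mA : MeasurableSpace X)
    (Φ : G →* Equiv.Perm X) (π : G →* Γ) : Prop where
  le : mA ≤ mX
  mono : ∀ a, π a ≤ 1 → mA.comap (Φ a : X → X) ≤ mA

variable {X : Type*} {mA mY mX : MeasurableSpace X} {μ : Measure X} [IsProbabilityMeasure μ]
variable {G Γ : Type*} [Group G] [Group Γ] [LinearOrder Γ] [MulLeftMono Γ] [MulRightMono Γ]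
variable {Φ : G →* Equiv.Perm X} {π : G →* Γ} {e : G}

theorem ocm_mono (hA : OFilt mX mA Φ π) {a b : G} (h : π a ≤ π b) :
    cm mA Φ a ≤ cm mA Φ b := by
  have e1 : a = (a * b⁻¹) * b := by group
  rw [e1, cm_mul]
  refine MeasurableSpace.comap_mono (hA.mono _ ?_)
  rw [map_mul, map_inv]
  exact mul_inv_le_one_iff_le.2 h

theorem ocm_le (hF : Flow μ Φ) (hA : OFilt mX mA Φ π) (a : G) : cm mA Φ a ≤ mX :=
  (MeasurableSpace.comap_mono hA.le).trans (hF a).measurable.comap_le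

/-- `x < y` implies `x ≤ e⁻¹ y` -/
theorem le_pred (he : IsLeast {g : Γ | 1 < g} (π e)) {a b : G} (h : π a < π b) :
    π a ≤ π (e⁻¹ * b) := by
  have h1 : 1 < π b * (π a)⁻¹ := by
    rw [← mul_inv_cancel (π a)]
    exact mul_lt_mul_left h _
  have h2 : π e ≤ π b * (π a)⁻¹ := he.2 h1
  rw [map_mul, map_inv, le_inv_mul_iff_mul_le]
  calc π e * π a ≤ (π b * (π a)⁻¹) * π a := mul_le_mul_left h2 _
    _ = π b := by group

theorem orth_shift' (hF : Flow μ Φ) (hA : OFilt mX mA Φ π) {s : G} {f : X → ℝ}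
    (hf : Measurable f) (hg : CE μ (cm mA Φ s) f fun _ => 0) (p : G) {h : X → ℝ}
    (hh : Measurable[cm mA Φ (s * p)] h) {C : ℝ} (hC : ∀ x, |h x| ≤ C) :
    ∫ x, f (Φ p x) * h x ∂μ = 0 := by
  have h1 : Measurable[cm mA Φ s] fun x => h (Φ p⁻¹ x) := by
    have := meas_shift p⁻¹ hh
    rwa [mul_inv_cancel_right] at this
  have h2 := hg.2.2 _ h1 ⟨C, fun x => hC _⟩
  have hhm : Measurable fun x => h (Φ p⁻¹ x) := h1.mono (ocm_le hF hA s) le_rfl
  have h3 : ∫ x, (f x - 0) * h (Φ p⁻¹ x) ∂μ =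
      ∫ x, (f (Φ p x) - 0) * h (Φ p⁻¹ (Φ p x)) ∂μ := by
    have h4 := integral_map (μ := μ) (φ := (Φ p : X → X))
      (f := fun x => (f x - 0) * h (Φ p⁻¹ x)) (hF p).measurable.aemeasurable
      ((hf.sub measurable_const).mul hhm).aestronglyMeasurable
    rw [(hF p).map_eq] at h4
    exact h4
  rw [h3] at h2
  rw [← h2]
  congr 1
  funext x
  rw [← Equiv.Perm.mul_apply, ← map_mul, inv_mul_cancel, map_one, Equiv.Perm.one_apply, sub_zero]

variable {J : Type*} [DecidableEq J]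

/-- `v` is the unique top position -/
def Top (V : Finset J) (π : G →* Γ) (p : J → G) (v : J) : Prop :=
  ∀ w ∈ V, w ≠ v → π (p w) < π (p v)

open Classical in
/-- the orthogonal functions: `c v` are the windows, `p v` the positions -/
def XI (V : Finset J) (Φ : G →* Equiv.Perm X) (π : G →* Γ) (c : J → G) (F : J → X → ℝ)
    (W : X → ℝ) (p : J → G) (x : X) : ℝ :=
  if ∃ v ∈ V, Top V π (fun w => c w * p w) v then (∏ w ∈ V, F w (Φ (p w) x)) * W x else 0

theorem XI_abs {V : Finset J} {c : J → G} {F : J → X → ℝ} {W : X → ℝ}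
    (hF : ∀ w ∈ V, ∀ x, |F w x| ≤ 1) (hW : ∀ x, |W x| ≤ 1) (p : J → G) (x : X) :
    |XI V Φ π c F W p x| ≤ 1 := by
  unfold XI
  split_ifs with h
  · rw [abs_mul]
    have h2 := prod_abs_le (Φ := Φ) (V := V) (F := F) hF p x
    calc _ ≤ (1 : ℝ) * 1 := mul_le_mul h2 (hW x) (abs_nonneg _) zero_le_one
      _ = 1 := one_mul 1
  · simp

/-- measurability with respect to the past -/
theorem XI_past (hA : OFilt mX mA Φ π) (hY : Base mY mA Φ) {V : Finset J} {c : J → G}
    {F : J → X → ℝ} {W : X → ℝ} (hF : ∀ w ∈ V, Measurable[cm mA Φ (c w)] (F w))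
    (hW : Measurable[mY] W) {p : J → G} {t : G} (ht : ∀ w ∈ V, π (c w * p w) ≤ π t) :
    Measurable[cm mA Φ t] (XI V Φ π c F W p) := by
  unfold XI
  by_cases htop : ∃ v ∈ V, Top V π (fun w => c w * p w) v
  · simp only [htop, if_true]
    have h3 : Measurable[cm mA Φ t] fun x => ∏ w ∈ V, F w (Φ (p w) x) := by
      refine Finset.measurable_fun_prod _ fun w hw => ?_
      exact (meas_shift _ (hF w hw)).mono (ocm_mono hA (ht w hw)) le_rfl
    have h4 : Measurable[cm mA Φ t] W := hW.mono (base_le hY t) le_rfl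
    exact h3.mul h4
  · simp only [htop, if_false]
    exact measurable_const

theorem XI_meas (hFl : Flow μ Φ) (hA : OFilt mX mA Φ π) (hY : Base mY mA Φ) {V : Finset J}
    {c : J → G} {F : J → X → ℝ} {W : X → ℝ} (hF : ∀ w ∈ V, Measurable[cm mA Φ (c w)] (F w))
    (hW : Measurable[mY] W) (p : J → G) : Measurable (XI V Φ π c F W p) := by
  unfold XI
  by_cases htop : ∃ v ∈ V, Top V π (fun w => c w * p w) v
  · simp only [htop, if_true]
    have h3 : Measurable fun x => ∏ w ∈ V, F w (Φ (p w) x) := by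
      refine Finset.measurable_fun_prod _ fun w hw => ?_
      exact ((hF w hw).mono (ocm_le hFl hA _) le_rfl).comp (hFl _).measurable
    exact h3.mul (hW.mono (hY.le.trans hA.le) le_rfl)
  · simp only [htop, if_false]
    exact measurable_const

/-- orthogonality, ordered version -/
theorem XI_orth_lt (hFl : Flow μ Φ) (hA : OFilt mX mA Φ π) (hY : Base mY mA Φ)
    (he : IsLeast {g : Γ | 1 < g} (π e)) {V : Finset J} {c : J → G}
    {F : J → X → ℝ} (hF : ∀ w ∈ V, Measurable[cm mA Φ (c w)] (F w))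
    (hF1 : ∀ w ∈ V, ∀ x, |F w x| ≤ 1)
    (hF0 : ∀ w ∈ V, CE μ (cm mA Φ (e⁻¹ * c w)) (F w) fun _ => 0)
    {W W' : X → ℝ} (hW : Measurable[mY] W) (hW1 : ∀ x, |W x| ≤ 1)
    (hW' : Measurable[mY] W') (hW1' : ∀ x, |W' x| ≤ 1) {p p' : J → G} {v : J} (hv : v ∈ V)
    (htop : Top V π (fun w => c w * p w) v) (hlt : ∀ w ∈ V, π (c w * p' w) < π (c v * p v)) :
    ∫ x, XI V Φ π c F W p x * XI V Φ π c F W' p' x ∂μ = 0 := by
  classical
  have h1 : Measurable[cm mA Φ (e⁻¹ * c v * p v)] (XI V Φ π c F W' p') := by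
    refine XI_past hA hY hF hW' fun w hw => ?_
    rw [mul_assoc]
    exact le_pred he (hlt w hw)
  have h2 : Measurable[cm mA Φ (e⁻¹ * c v * p v)]
      fun x => ∏ w ∈ V.erase v, F w (Φ (p w) x) := by
    refine Finset.measurable_fun_prod _ fun w hw => ?_
    refine (meas_shift _ (hF w (Finset.mem_of_mem_erase hw))).mono (ocm_mono hA ?_) le_rfl
    rw [mul_assoc]
    exact le_pred he (htop w (Finset.mem_of_mem_erase hw) (Finset.ne_of_mem_erase hw))
  have h3 : Measurable[cm mA Φ (e⁻¹ * c v * p v)] W := hW.mono (base_le hY _) le_rfl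
  have hfm : Measurable (F v) := (hF v hv).mono (ocm_le hFl hA _) le_rfl
  have hb : ∀ x, |((∏ w ∈ V.erase v, F w (Φ (p w) x)) * W x) * XI V Φ π c F W' p' x| ≤ 1 := by
    intro x
    rw [abs_mul, abs_mul]
    have a1 := prod_abs_le (Φ := Φ) (V := V.erase v) (F := F)
      (fun w hw => hF1 w (Finset.mem_of_mem_erase hw)) p x
    have a2 := XI_abs (Φ := Φ) (π := π) (c := c) hF1 hW1' p' x
    have a3 : |∏ w ∈ V.erase v, F w (Φ (p w) x)| * |W x| ≤ 1 := by
      calc _ ≤ (1 : ℝ) * 1 := mul_le_mul a1 (hW1 x) (abs_nonneg _) zero_le_one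
        _ = 1 := one_mul 1
    calc _ ≤ (1 : ℝ) * 1 := mul_le_mul a3 a2 (abs_nonneg _) zero_le_one
      _ = 1 := one_mul 1
  have key := orth_shift' hFl hA hfm (hF0 v hv) (p v) ((h2.mul h3).mul h1) hb
  rw [← key]
  congr 1
  funext x
  conv_lhs =>
    enter [1]
    unfold XI
  rw [if_pos ⟨v, hv, htop⟩, ← Finset.mul_prod_erase V _ hv]
  simp only [Pi.mul_apply]
  ring

open Classical in
/-- **Orthogonality.** -/
theorem XI_orth (hFl : Flow μ Φ) (hA : OFilt mX mA Φ π) (hY : Base mY mA Φ)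
    (he : IsLeast {g : Γ | 1 < g} (π e)) {V : Finset J} {c : J → G}
    {F : J → X → ℝ} (hF : ∀ w ∈ V, Measurable[cm mA Φ (c w)] (F w))
    (hF1 : ∀ w ∈ V, ∀ x, |F w x| ≤ 1)
    (hF0 : ∀ w ∈ V, CE μ (cm mA Φ (e⁻¹ * c w)) (F w) fun _ => 0)
    {W W' : X → ℝ} (hW : Measurable[mY] W) (hW1 : ∀ x, |W x| ≤ 1)
    (hW' : Measurable[mY] W') (hW1' : ∀ x, |W' x| ≤ 1) {p p' : J → G}
    (hne : ∀ v ∈ V, ∀ w ∈ V, π (c v * p v) ≠ π (c w * p' w)) :
    ∫ x, XI V Φ π c F W p x * XI V Φ π c F W' p' x ∂μ = 0 := by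
  by_cases ht : ∃ v ∈ V, Top V π (fun w => c w * p w) v
  swap
  · have h0 : ∀ x, XI V Φ π c F W p x = 0 := fun x => by
      unfold XI
      rw [if_neg ht]
    simp only [h0, zero_mul, integral_zero]
  by_cases ht' : ∃ v ∈ V, Top V π (fun w => c w * p' w) v
  swap
  · have h0 : ∀ x, XI V Φ π c F W' p' x = 0 := fun x => by
      unfold XI
      rw [if_neg ht']
    simp only [h0, mul_zero, integral_zero]
  obtain ⟨v, hv, htop⟩ := ht
  obtain ⟨v', hv', htop'⟩ := ht'
  have hle : ∀ w ∈ V, π (c w * p w) ≤ π (c v * p v) := fun w hw => by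
    by_cases h : w = v
    · rw [h]
    · exact (htop w hw h).le
  have hle' : ∀ w ∈ V, π (c w * p' w) ≤ π (c v' * p' v') := fun w hw => by
    by_cases h : w = v'
    · rw [h]
    · exact (htop' w hw h).le
  rcases lt_or_gt_of_ne (hne v hv v' hv') with h | h
  · have h1 := XI_orth_lt hFl hA hY he hF hF1 hF0 hW' hW1' hW hW1 hv' htop'
      (fun w hw => (hle w hw).trans_lt h)
    rw [← h1]
    congr 1
    funext x
    ring
  · exact XI_orth_lt hFl hA hY he hF hF1 hF0 hW hW1 hW' hW1' hv htop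
      (fun w hw => (hle' w hw).trans_lt h)

end Pool.Agent.V5helper56.OK
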