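import Pool.Agent.V5helper56.OK.Slot

/-!
# Density of the functions with finite windows
-/

set_option autoImplicit false
set_option linter.unusedSectionVars false

open MeasureTheory Filter Topology
open scoped InnerProductSpace ENNReal

noncomputable section

namespace Pool.Agent.V5helper56.OK

open Pool.Agent.TH784.KE (cm Flow cm_mul meas_shift Base base_le CE prod_abs_le exists_CE Van
  int_abs_le_norm)
open Pool.Agent.W761.Gauss (BM)

variable {X : Type} {mA mY mX : MeasurableSpace X} {μ : Measure X} [IsProbabilityMeasure μ]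
variable {G Γ : Type*} [Group G] [Group Γ] [LinearOrder Γ] [MulLeftMono Γ] [MulRightMono Γ]
variable {Φ : G →* Equiv.Perm X} {π : G →* Γ} {e : G}

/-- the only functions without innovations are those of the base -/
def Spn (μ : Measure X) (mA mY : MeasurableSpace X) (Φ : G →* Equiv.Perm X) (e : G) : Prop :=
  ∀ f : X → ℝ, MemLp f 2 μ →
    (∀ a : G, μ[f | cm mA Φ a] =ᵐ[μ] μ[f | cm mA Φ (e⁻¹ * a)]) → AEStronglyMeasurable[mY] f μ

/-- the real span -/
def SpR (μ : Measure X) (mA : MeasurableSpace X) (Φ : G →* Equiv.Perm X) (e : G) :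
    Submodule ℝ (X → ℝ) :=
  Submodule.span ℝ {s | Stp μ mA Φ e s}

theorem cm_pred_le (hA : OFilt mX mA Φ π) (he : IsLeast {g : Γ | 1 < g} (π e)) (a : G) :
    cm mA Φ (e⁻¹ * a) ≤ cm mA Φ a := by
  refine ocm_mono hA ?_
  have h1 : (1 : Γ) < π e := he.1
  rw [map_mul, map_inv, inv_mul_le_iff_le_mul]
  calc π a = 1 * π a := (one_mul _).symm
    _ ≤ π e * π a := mul_le_mul_left h1.le _

/-- the innovation of a bounded function -/
theorem stp_of (hFl : Flow μ Φ) (hA : OFilt mX mA Φ π) (he : IsLeast {g : Γ | 1 < g} (π e))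
    {a : G} {h h' : X → ℝ} (hh : Measurable[cm mA Φ a] h) (hb : ∀ x, |h x| ≤ 1)
    (hh' : CE μ (cm mA Φ (e⁻¹ * a)) h h') : Stp μ mA Φ e fun x => (h x - h' x) / 2 := by
  refine ⟨a, ?_, fun x => ?_, measurable_const, fun x => by simp, fun k hk hC => ?_⟩
  · exact (hh.sub (hh'.1.mono (cm_pred_le hA he a) le_rfl)).div_const 2
  · rw [abs_div, abs_two]
    have h1 := hb x
    have h2 := hh'.2.1 x
    have h3 := abs_sub (h x) (h' x)
    linarith
  · have h1 := hh'.2.2 k hk hC
    have e1 : (fun x => ((h x - h' x) / 2 - 0) * k x) = fun x => 2⁻¹ * ((h x - h' x) * k x) := by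
      funext x
      ring
    rw [e1, integral_const_mul, h1, mul_zero]

theorem dense_real (hFl : Flow μ Φ) (hA : OFilt mX mA Φ π) (hY : Base mY mA Φ)
    (he : IsLeast {g : Γ | 1 < g} (π e)) (hS : Spn μ mA mY Φ e) {f : X → ℝ}
    (hf : Measurable f) (hb : ∃ C : ℝ, ∀ x, |f x| ≤ C) (hV : Van μ mY f) {ε : ℝ} (hε : 0 < ε) :
    ∃ s ∈ SpR μ mA Φ e, ∫ x, |f x - s x| ∂μ ≤ ε := by
  classical
  have hYX : mY ≤ mX := hY.le.trans hA.le
  obtain ⟨C, hC⟩ := hb
  have hfi : Integrable f μ := Integrable.of_bound hf.aestronglyMeasurable C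
    (Eventually.of_forall hC)
  have hf2 : MemLp f 2 μ := MemLp.of_bound hf.aestronglyMeasurable C (Eventually.of_forall hC)
  let S0 : Submodule ℝ (Lp ℝ 2 μ) :=
    Submodule.span ℝ {u | ∃ s : X → ℝ, Stp μ mA Φ e s ∧ (u : X → ℝ) =ᵐ[μ] s}
  have hx : hf2.toLp ∈ S0.topologicalClosure := by
    rw [← Submodule.orthogonal_orthogonal_eq_closure, Submodule.mem_orthogonal]
    intro y hy
    rw [Submodule.mem_orthogonal] at hy
    have hy2 : MemLp (y : X → ℝ) 2 μ := Lp.memLp y
    have hyi : Integrable (y : X → ℝ) μ := hy2.integrable (by norm_num)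
    -- orthogonality to the innovations
    have h1 : ∀ s : X → ℝ, Stp μ mA Φ e s → ∫ x, s x * (y : X → ℝ) x ∂μ = 0 := by
      intro s hs
      obtain ⟨c, hs1, hs2, hs3⟩ := id hs
      have hsm : MemLp s 2 μ := MemLp.of_bound
        ((hs1.mono (ocm_le hFl hA c) le_rfl).aestronglyMeasurable) 1
        (Eventually.of_forall fun x => by rw [Real.norm_eq_abs]; exact hs2 x)
      have h2 := hy hsm.toLp (Submodule.subset_span ⟨s, hs, hsm.coeFn_toLp⟩)
      rw [L2.inner_def] at h2
      rw [← h2]
      apply integral_congr_ae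
      filter_upwards [hsm.coeFn_toLp] with x hx
      rw [hx]
      simp [mul_comm]
    -- no innovations
    have h2 : ∀ a : G, μ[(y : X → ℝ) | cm mA Φ a] =ᵐ[μ] μ[(y : X → ℝ) | cm mA Φ (e⁻¹ * a)] := by
      intro a
      symm
      refine ae_eq_condExp_of_forall_setIntegral_eq (ocm_le hFl hA a) hyi
        (fun B _ _ => integrable_condExp.integrableOn) (fun B hB _ => ?_)
        ((stronglyMeasurable_condExp.mono (cm_pred_le hA he a)).aestronglyMeasurable)
      have hm' := ocm_le hFl hA (e⁻¹ * a)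
      set h : X → ℝ := B.indicator fun _ => 1 with hh
      have hBX : MeasurableSet[mX] B := ocm_le hFl hA a _ hB
      have hhm : Measurable[cm mA Φ a] h := measurable_const.indicator hB
      have hhb : ∀ x, |h x| ≤ 1 := fun x => by
        rw [hh]
        by_cases hx : x ∈ B <;> simp [hx]
      have hhX : Measurable h := hhm.mono (ocm_le hFl hA a) le_rfl
      have hhi : Integrable h μ := Integrable.of_bound hhX.aestronglyMeasurable 1
        (Eventually.of_forall fun x => by rw [Real.norm_eq_abs]; exact hhb x)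
      obtain ⟨h', hh', hhe⟩ := exists_CE hm' hhX hhb (μ := μ)
      have hh'X : Measurable h' := hh'.1.mono hm' le_rfl
      have k1 := h1 _ (stp_of hFl hA he hhm hhb hh')
      set g : X → ℝ := μ[(y : X → ℝ) | cm mA Φ (e⁻¹ * a)] with hg
      have hgm : StronglyMeasurable[cm mA Φ (e⁻¹ * a)] g := stronglyMeasurable_condExp
      have hgi : Integrable g μ := integrable_condExp
      have hyh : Integrable (fun x => h x * (y : X → ℝ) x) μ :=
        hyi.bdd_mul hhX.aestronglyMeasurable (Eventually.of_forall fun x => by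
          rw [Real.norm_eq_abs]; exact hhb x)
      have hyh' : Integrable (fun x => h' x * (y : X → ℝ) x) μ :=
        hyi.bdd_mul hh'X.aestronglyMeasurable (Eventually.of_forall fun x => by
          rw [Real.norm_eq_abs]; exact hh'.2.1 x)
      have hgh : Integrable (g * h) μ := by
        have := hgi.bdd_mul hhX.aestronglyMeasurable (Eventually.of_forall fun x => by
          rw [Real.norm_eq_abs]; exact hhb x) (f := h)
        refine this.congr (Eventually.of_forall fun x => ?_)
        simp [mul_comm]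
      have k2 : ∫ x, h x * (y : X → ℝ) x ∂μ = ∫ x, h' x * (y : X → ℝ) x ∂μ := by
        have e1 : (fun x => (h x - h' x) / 2 * (y : X → ℝ) x) =
            fun x => 2⁻¹ * (h x * (y : X → ℝ) x - h' x * (y : X → ℝ) x) := by
          funext x
          ring
        rw [e1, integral_const_mul, integral_sub hyh hyh'] at k1
        linarith
      have k3 : ∫ x, h' x * (y : X → ℝ) x ∂μ = ∫ x, h' x * g x ∂μ := by
        have p1 := condExp_mul_of_stronglyMeasurable_left (μ := μ)
          hh'.1.stronglyMeasurable hyh' hyi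
        have p2 : ∫ x, (h' * (y : X → ℝ)) x ∂μ = ∫ x, (h' * g) x ∂μ := by
          rw [← integral_condExp hm']
          exact integral_congr_ae p1
        exact p2
      have k4 : ∫ x, g x * h x ∂μ = ∫ x, h' x * g x ∂μ := by
        have p1 := condExp_mul_of_stronglyMeasurable_left (μ := μ) hgm hgh hhi
        have p2 : ∫ x, (g * h) x ∂μ = ∫ x, (g * μ[h | cm mA Φ (e⁻¹ * a)]) x ∂μ := by
          rw [← integral_condExp hm']
          exact integral_congr_ae p1
        have p3 : ∫ x, (g * μ[h | cm mA Φ (e⁻¹ * a)]) x ∂μ = ∫ x, h' x * g x ∂μ := by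
          apply integral_congr_ae
          filter_upwards [hhe] with x hx
          rw [Pi.mul_apply, ← hx, mul_comm]
        exact p2.trans p3
      have k5 : ∫ x in B, g x ∂μ = ∫ x, g x * h x ∂μ := by
        rw [← integral_indicator hBX]
        congr 1
        funext x
        rw [hh]
        by_cases hx : x ∈ B <;> simp [hx]
      have k6 : ∫ x in B, (y : X → ℝ) x ∂μ = ∫ x, h x * (y : X → ℝ) x ∂μ := by
        rw [← integral_indicator hBX]
        congr 1
        funext x
        rw [hh]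
        by_cases hx : x ∈ B <;> simp [hx]
      rw [k5, k4, k6, k2, k3]
    obtain ⟨z, hz, hzy⟩ := hS _ hy2 h2
    -- orthogonality to `f`
    have hτ0 : (0 : X → ℝ) =ᵐ[μ] μ[f | mY] := by
      refine ae_eq_condExp_of_forall_setIntegral_eq hYX hfi (fun B _ _ => integrableOn_zero)
        (fun B hB _ => ?_) stronglyMeasurable_zero.aestronglyMeasurable
      rw [hV B hB]
      simp
    rw [L2.inner_def]
    have h3 : ∀ᵐ x ∂μ, (⟪(y : X → ℝ) x, (hf2.toLp : X → ℝ) x⟫_ℝ : ℝ) = (z * f) x := by
      filter_upwards [hzy, hf2.coeFn_toLp] with x hx1 hx2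
      rw [hx2, hx1, Pi.mul_apply]
      simp [mul_comm]
    rw [integral_congr_ae h3, ← integral_condExp hYX]
    have hzf : Integrable (z * f) μ := by
      have hz2 : MemLp z 2 μ := (memLp_congr_ae hzy).1 hy2
      exact hz2.integrable_mul hf2
    have h4 := condExp_mul_of_stronglyMeasurable_left (μ := μ) hz hzf hfi
    have h5 : μ[z * f | mY] =ᵐ[μ] 0 := by
      filter_upwards [h4, hτ0] with x hx1 hx2
      rw [hx1, Pi.mul_apply, ← hx2]
      simp
    rw [integral_congr_ae h5]
    simp
  -- approximation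
  have hx' : hf2.toLp ∈ closure (S0 : Set (Lp ℝ 2 μ)) := hx
  rw [Metric.mem_closure_iff] at hx'
  obtain ⟨u, hu, hd⟩ := hx' ε hε
  have hspan : ∀ u ∈ S0, ∃ s ∈ SpR μ mA Φ e, (u : X → ℝ) =ᵐ[μ] s := by
    intro u hu
    induction hu using Submodule.span_induction with
    | mem u hu =>
      obtain ⟨s, hs, e1⟩ := hu
      exact ⟨s, Submodule.subset_span hs, e1⟩
    | zero => exact ⟨0, zero_mem _, Lp.coeFn_zero _ _ _⟩
    | add u v _ _ hu hv =>
      obtain ⟨s, hs, e1⟩ := hu
      obtain ⟨t, ht, e2⟩ := hv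
      refine ⟨s + t, add_mem hs ht, ?_⟩
      filter_upwards [Lp.coeFn_add u v, e1, e2] with x h1 h2 h3
      rw [h1, Pi.add_apply, Pi.add_apply, h2, h3]
    | smul c u _ hu =>
      obtain ⟨s, hs, e1⟩ := hu
      refine ⟨c • s, Submodule.smul_mem _ c hs, ?_⟩
      filter_upwards [Lp.coeFn_smul c u, e1] with x h1 h2
      rw [h1, Pi.smul_apply, Pi.smul_apply, h2]
  obtain ⟨s, hs, e1⟩ := hspan u hu
  refine ⟨s, hs, ?_⟩
  refine (int_abs_le_norm (hf2.toLp - u) ?_).trans ?_
  · filter_upwards [Lp.coeFn_sub hf2.toLp u, hf2.coeFn_toLp, e1] with x h1 h2 h3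
    rw [h1, Pi.sub_apply, h2, h3]
  · rw [← dist_eq_norm]
    exact hd.le

/-- real span elements as complex functions -/
theorem SpR_cast {s : X → ℝ} (hs : s ∈ SpR μ mA Φ e) : (fun x => (s x : ℂ)) ∈ SpS μ mA Φ e := by
  unfold SpR at hs
  induction hs using Submodule.span_induction with
  | mem s hs => exact Submodule.subset_span ⟨s, hs, rfl⟩
  | zero =>
    have : (fun x : X => (((0 : X → ℝ) x : ℝ) : ℂ)) = 0 := by
      funext x
      simp
    rw [this]
    exact zero_mem _
  | add s t _ _ hs ht =>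
    have : (fun x : X => (((s + t) x : ℝ) : ℂ)) = (fun x => (s x : ℂ)) + fun x => (t x : ℂ) := by
      funext x
      simp
    rw [this]
    exact add_mem hs ht
  | smul c s _ hs =>
    have : (fun x : X => (((c • s) x : ℝ) : ℂ)) = (c : ℂ) • fun x => (s x : ℂ) := by
      funext x
      simp
    rw [this]
    exact Submodule.smul_mem _ _ hs

/-- **Density.** -/
theorem dense_complex (hFl : Flow μ Φ) (hA : OFilt mX mA Φ π) (hY : Base mY mA Φ)
    (he : IsLeast {g : Γ | 1 < g} (π e)) (hS : Spn μ mA mY Φ e) {f : X → ℂ} (hf : BM f)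
    (hV : ∀ B : Set X, MeasurableSet[mY] B → ∫ x in B, f x ∂μ = 0) {ε : ℝ} (hε : 0 < ε) :
    ∃ h ∈ SpS μ mA Φ e, ∫ x, ‖f x - h x‖ ∂μ ≤ ε := by
  obtain ⟨hfm, C, hC⟩ := hf
  have hfi : Integrable f μ := Integrable.of_bound hfm.aestronglyMeasurable C
    (Eventually.of_forall hC)
  have hV₁ : Van μ mY fun x => (f x).re := by
    intro B hB
    have h5 : ∫ x in B, (f x).re ∂μ = (∫ x in B, f x ∂μ).re := integral_re hfi.integrableOn
    rw [h5, hV B hB]
    simp
  have hV₂ : Van μ mY fun x => (f x).im := by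
    intro B hB
    have h5 : ∫ x in B, (f x).im ∂μ = (∫ x in B, f x ∂μ).im := integral_im hfi.integrableOn
    rw [h5, hV B hB]
    simp
  have hb₁ : ∀ x, |(f x).re| ≤ C := fun x => (Complex.abs_re_le_norm _).trans (hC x)
  have hb₂ : ∀ x, |(f x).im| ≤ C := fun x => (Complex.abs_im_le_norm _).trans (hC x)
  have hm₁ : Measurable fun x => (f x).re := Complex.measurable_re.comp hfm
  have hm₂ : Measurable fun x => (f x).im := Complex.measurable_im.comp hfm
  obtain ⟨s, hs, hsi⟩ := dense_real hFl hA hY he hS hm₁ ⟨C, hb₁⟩ hV₁ (half_pos hε)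
  obtain ⟨t, ht, hti⟩ := dense_real hFl hA hY he hS hm₂ ⟨C, hb₂⟩ hV₂ (half_pos hε)
  have hsB := SpS_BM (π := π) hFl hA (SpR_cast hs)
  have htB := SpS_BM (π := π) hFl hA (SpR_cast ht)
  have hsm : Measurable s := by
    have := Complex.measurable_re.comp hsB.1
    exact this
  have htm : Measurable t := by
    have := Complex.measurable_re.comp htB.1
    exact this
  obtain ⟨Cs, hCs⟩ := hsB.2
  obtain ⟨Ct, hCt⟩ := htB.2
  refine ⟨(fun x => (s x : ℂ)) + Complex.I • fun x => (t x : ℂ),
    add_mem (SpR_cast hs) (Submodule.smul_mem _ _ (SpR_cast ht)), ?_⟩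
  have hi₁ : Integrable (fun x => |(f x).re - s x|) μ := by
    refine Integrable.of_bound (hm₁.sub hsm).abs.aestronglyMeasurable (C + Cs)
      (Eventually.of_forall fun x => ?_)
    rw [Real.norm_eq_abs, abs_abs]
    have h1 := hCs x
    rw [Complex.norm_real, Real.norm_eq_abs] at h1
    exact (abs_sub _ _).trans (add_le_add (hb₁ x) h1)
  have hi₂ : Integrable (fun x => |(f x).im - t x|) μ := by
    refine Integrable.of_bound (hm₂.sub htm).abs.aestronglyMeasurable (C + Ct)
      (Eventually.of_forall fun x => ?_)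
    rw [Real.norm_eq_abs, abs_abs]
    have h1 := hCt x
    rw [Complex.norm_real, Real.norm_eq_abs] at h1
    exact (abs_sub _ _).trans (add_le_add (hb₂ x) h1)
  have hle : ∀ x, ‖f x - ((fun x => (s x : ℂ)) + Complex.I • fun x => (t x : ℂ)) x‖ ≤
      |(f x).re - s x| + |(f x).im - t x| := by
    intro x
    have e1 : f x - ((fun x => (s x : ℂ)) + Complex.I • fun x => (t x : ℂ)) x =
        (((f x).re - s x : ℝ) : ℂ) + Complex.I * (((f x).im - t x : ℝ) : ℂ) := by
      simp only [Pi.add_apply, Pi.smul_apply, smul_eq_mul]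
      push_cast
      conv_lhs => rw [← Complex.re_add_im (f x)]
      ring
    rw [e1]
    refine (norm_add_le _ _).trans ?_
    rw [norm_mul, Complex.norm_I, one_mul, Complex.norm_real, Complex.norm_real,
      Real.norm_eq_abs, Real.norm_eq_abs]
  refine (integral_mono_of_nonneg (Eventually.of_forall fun x => norm_nonneg _)
    (hi₁.add hi₂) (Eventually.of_forall hle)).trans ?_
  rw [integral_add' hi₁ hi₂]
  linarith

end Pool.Agent.V5helper56.OK
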