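import Mathlib

/-!
# Polynomial sequences with respect to a filtration (Lazard, Leibman)

`P F d` is the set of sequences `g : ℕ → G` all of whose `j`-th differences take values in
`F (d + j)`.  For a filtration `F` with `F M = ⊥` it is a subgroup, and `[P d, P e] ⊆ P (d+e)`.
(The proof is the one in `Pool.Agent.H77R2.Poly` for the lower central series.)
-/

set_option autoImplicit false
set_option linter.unusedSectionVars false

namespace Pool.Agent.V5helper56.OK

open Subgroup
open scoped commutatorElement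

/-- filtrations -/
structure Fil {G : Type*} [Group G] (F : ℕ → Subgroup G) : Prop where
  top : F 0 = ⊤
  anti : ∀ {i j : ℕ}, i ≤ j → F j ≤ F i
  comm : ∀ {i j : ℕ} {g h : G}, g ∈ F i → h ∈ F j → ⁅g, h⁆ ∈ F (i + j)

theorem Fil.conj {G : Type*} [Group G] {F : ℕ → Subgroup G} (hF : Fil F) {i : ℕ} (x : G) {g : G}
    (hg : g ∈ F i) : x * g * x⁻¹ ∈ F i := by
  have h1 : ⁅x, g⁆ ∈ F (0 + i) := hF.comm (by rw [hF.top]; exact mem_top x) hg
  rw [zero_add] at h1
  have h2 := mul_mem h1 hg
  simpa [commutatorElement_def] using h2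

variable {G : Type*} [Group G] {F : ℕ → Subgroup G}

/-- The difference operator on sequences. -/
def dif (g : ℕ → G) : ℕ → G := fun n => (g n)⁻¹ * g (n + 1)

/-- Sequences whose `j`-th differences lie in `F (d + j)`. -/
def P (F : ℕ → Subgroup G) (d : ℕ) : Set (ℕ → G) :=
  {g | ∀ j n, (dif^[j] g) n ∈ F (d + j)}

theorem mem_P_iff {d : ℕ} {g : ℕ → G} :
    g ∈ P F d ↔ (∀ n, g n ∈ F d) ∧ dif g ∈ P F (d + 1) := by
  constructor
  · intro h
    refine ⟨fun n => h 0 n, fun j n => ?_⟩
    have := h (j + 1) n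
    rw [Function.iterate_succ_apply] at this
    rwa [show d + 1 + j = d + (j + 1) by ring]
  · rintro ⟨h0, h1⟩ j n
    cases j with
    | zero => exact h0 n
    | succ j =>
      rw [Function.iterate_succ_apply, show d + (j + 1) = d + 1 + j by ring]
      exact h1 j n

theorem P_anti (hF : Fil F) {d e : ℕ} (h : d ≤ e) : P F e ⊆ P F d := fun _ hg j n =>
  hF.anti (by omega) (hg j n)

theorem dif_one : dif (1 : ℕ → G) = 1 := by
  funext n; simp [dif]

theorem one_mem_P (d : ℕ) : (1 : ℕ → G) ∈ P F d := by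
  intro j n
  have : ∀ j, dif^[j] (1 : ℕ → G) = 1 := by
    intro j
    induction j with
    | zero => rfl
    | succ j ih => rw [Function.iterate_succ_apply', ih, dif_one]
  rw [this j]
  exact one_mem _

theorem dif_mul (g h : ℕ → G) : dif (g * h) = h⁻¹ * dif g * h * dif h := by
  funext n; simp only [dif, Pi.mul_apply, Pi.inv_apply]; group

theorem dif_inv (g : ℕ → G) : dif g⁻¹ = g * (dif g)⁻¹ * g⁻¹ := by
  funext n; simp only [dif, Pi.mul_apply, Pi.inv_apply]; group

theorem dif_comm (g u : ℕ → G) : dif ⁅g, u⁆ =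
    u * ((g * ⁅u⁻¹, dif g⁆ * g⁻¹) * (g * ⁅dif g, dif u⁆ * g⁻¹) * ⁅g, dif u⁆) * u⁻¹ := by
  funext n; simp only [dif, Pi.mul_apply, Pi.inv_apply, commutatorElement_def]; group

theorem dif_conj_inv (g v : ℕ → G) : dif (g⁻¹ * v * g) =
    g⁻¹ * (⁅v⁻¹, (g * dif g * g⁻¹)⁻¹⁆ * ((g * dif g * g⁻¹)⁻¹ * dif v * (g * dif g * g⁻¹))) * g := by
  funext n; simp only [dif, Pi.mul_apply, Pi.inv_apply, commutatorElement_def]; group

theorem eq_one_of_mem_P (hF : Fil F) {M : ℕ} (hM : F M = ⊥) {d : ℕ} (hd : M ≤ d) {g : ℕ → G}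
    (hg : g ∈ P F d) : g = 1 := by
  funext n
  have h := (mem_P_iff.1 hg).1 n
  have h2 := hF.anti hd h
  rw [hM] at h2
  exact h2

/-- Closure properties of `P d`. -/
structure PGrp (F : ℕ → Subgroup G) (d : ℕ) : Prop where
  mul : ∀ g h : ℕ → G, g ∈ P F d → h ∈ P F d → g * h ∈ P F d
  inv : ∀ g : ℕ → G, g ∈ P F d → g⁻¹ ∈ P F d

/-- The full statement for all `d, e ≥ D`. -/
structure PAll (F : ℕ → Subgroup G) (D : ℕ) : Prop where
  grp : ∀ d, D ≤ d → PGrp F d
  comm : ∀ d e, D ≤ d → D ≤ e → ∀ g u : ℕ → G, g ∈ P F d → u ∈ P F e → ⁅g, u⁆ ∈ P F (d + e)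

theorem PAll.conj (hF : Fil F) {D : ℕ} (h : PAll F D) {d e : ℕ} (hd : D ≤ d) (he : D ≤ e) {g u : ℕ → G}
    (hg : g ∈ P F d) (hu : u ∈ P F e) : g * u * g⁻¹ ∈ P F e := by
  have : g * u * g⁻¹ = ⁅g, u⁆ * u := by simp [commutatorElement_def]
  rw [this]
  exact (h.grp e he).mul _ _ (P_anti hF (by omega) (h.comm d e hd he g u hg hu)) hu

theorem PAll.conj' (hF : Fil F) {D : ℕ} (h : PAll F D) {d e : ℕ} (hd : D ≤ d) (he : D ≤ e) {g u : ℕ → G}
    (hg : g ∈ P F d) (hu : u ∈ P F e) : g⁻¹ * u * g ∈ P F e := by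
  have := PAll.conj hF h hd he ((h.grp d hd).inv _ hg) hu
  rwa [inv_inv] at this

theorem pall_base (hF : Fil F) {M : ℕ} (hM : F M = ⊥) : PAll F M where
  grp d hd := ⟨fun g h hg hh => by
      rw [eq_one_of_mem_P hF hM hd hg, eq_one_of_mem_P hF hM hd hh, mul_one]; exact one_mem_P _,
    fun g hg => by rw [eq_one_of_mem_P hF hM hd hg, inv_one]; exact one_mem_P _⟩
  comm d e hd he g u hg hu := by
    rw [eq_one_of_mem_P hF hM hd hg, commutatorElement_one_left]; exact one_mem_P _

theorem pall_step (hF : Fil F) {M : ℕ} (hM : F M = ⊥) {D : ℕ} (H : PAll F (D + 1)) : PAll F D := by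
  -- Step 1: commutators with elements of `P D`
  have step1 : ∀ k e, D + 1 ≤ e → M ≤ e + k → ∀ g u : ℕ → G, g ∈ P F D → u ∈ P F e →
      ⁅g, u⁆ ∈ P F (D + e) := by
    intro k
    induction k with
    | zero =>
      intro e he hk g u hg hu
      rw [eq_one_of_mem_P hF hM (by omega) hu, commutatorElement_one_right]
      exact one_mem_P _
    | succ k ih =>
      intro e he hk g u hg hu
      obtain ⟨hg0, hg1⟩ := mem_P_iff.1 hg
      obtain ⟨hu0, hu1⟩ := mem_P_iff.1 hu
      have conjg : ∀ f v, e + 1 ≤ f → v ∈ P F f → g * v * g⁻¹ ∈ P F f := by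
        intro f v hf hv
        have h1 := ih f (by omega) (by omega) g v hg hv
        have : g * v * g⁻¹ = ⁅g, v⁆ * v := by simp [commutatorElement_def]
        rw [this]
        exact (H.grp f (by omega)).mul _ _ (P_anti hF (by omega) h1) hv
      rw [mem_P_iff]
      refine ⟨fun n => hF.comm (hg0 n) (hu0 n), ?_⟩
      rw [dif_comm]
      have G1 := H.grp (D + e + 1) (by omega)
      apply PAll.conj hF H (d := e) (by omega) (by omega) hu
      apply G1.mul _ _ (G1.mul _ _ _ _)
      · exact ih (e + 1) (by omega) (by omega) g _ hg hu1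
      · apply conjg _ _ (by omega)
        exact P_anti hF (by omega)
          (H.comm e (D + 1) (by omega) (by omega) _ _ ((H.grp e he).inv _ hu) hg1)
      · apply conjg _ _ (by omega)
        exact P_anti hF (by omega) (H.comm (D + 1) (e + 1) (by omega) (by omega) _ _ hg1 hu1)
  have step1' : ∀ e, D + 1 ≤ e → ∀ g u : ℕ → G, g ∈ P F D → u ∈ P F e →
      ⁅g, u⁆ ∈ P F (D + e) := fun e he => step1 M e he (by omega)
  have conjg : ∀ g f v, g ∈ P F D → D + 1 ≤ f → v ∈ P F f → g * v * g⁻¹ ∈ P F f := by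
    intro g f v hg hf hv
    have h1 := step1' f hf g v hg hv
    have : g * v * g⁻¹ = ⁅g, v⁆ * v := by simp [commutatorElement_def]
    rw [this]
    exact (H.grp f hf).mul _ _ (P_anti hF (by omega) h1) hv
  -- Step 2: conjugation by inverses
  have step2 : ∀ k f, D + 1 ≤ f → M ≤ f + k → ∀ g v : ℕ → G, g ∈ P F D → v ∈ P F f →
      g⁻¹ * v * g ∈ P F f := by
    intro k
    induction k with
    | zero =>
      intro f hf hk g v hg hv
      rw [eq_one_of_mem_P hF hM (by omega) hv]
      simpa using one_mem_P (F := F) f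
    | succ k ih =>
      intro f hf hk g v hg hv
      obtain ⟨hg0, hg1⟩ := mem_P_iff.1 hg
      obtain ⟨hv0, hv1⟩ := mem_P_iff.1 hv
      rw [mem_P_iff]
      refine ⟨fun n => ?_, ?_⟩
      · have := hF.conj (g n)⁻¹ (hv0 n)
        simpa using this
      · rw [dif_conj_inv]
        have hγ : g * dif g * g⁻¹ ∈ P F (D + 1) := conjg g (D + 1) _ hg le_rfl hg1
        apply ih (f + 1) (by omega) (by omega) g _ hg
        apply (H.grp (f + 1) (by omega)).mul
        · exact P_anti hF (by omega) (H.comm f (D + 1) hf le_rfl _ _ ((H.grp f hf).inv _ hv)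
            ((H.grp (D + 1) le_rfl).inv _ hγ))
        · exact PAll.conj' hF H (d := D + 1) le_rfl (by omega) hγ hv1
  have step2' : ∀ g f v, g ∈ P F D → D + 1 ≤ f → v ∈ P F f → g⁻¹ * v * g ∈ P F f :=
    fun g f v hg hf hv => step2 M f hf (by omega) g v hg hv
  -- Step 3: `P D` is a group
  have step3 : PGrp F D := by
    refine ⟨fun g h hg hh => ?_, fun g hg => ?_⟩
    · obtain ⟨hg0, hg1⟩ := mem_P_iff.1 hg
      obtain ⟨hh0, hh1⟩ := mem_P_iff.1 hh
      rw [mem_P_iff]
      refine ⟨fun n => mul_mem (hg0 n) (hh0 n), ?_⟩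
      rw [dif_mul]
      exact (H.grp _ le_rfl).mul _ _ (step2' h _ _ hh le_rfl hg1) hh1
    · obtain ⟨hg0, hg1⟩ := mem_P_iff.1 hg
      rw [mem_P_iff]
      refine ⟨fun n => inv_mem (hg0 n), ?_⟩
      rw [dif_inv]
      exact conjg g _ _ hg le_rfl ((H.grp _ le_rfl).inv _ hg1)
  have step4 : ∀ g u : ℕ → G, g ∈ P F D → u ∈ P F D → ⁅g, u⁆ ∈ P F (D + D) := by
    intro g u hg hu
    obtain ⟨hg0, hg1⟩ := mem_P_iff.1 hg
    obtain ⟨hu0, hu1⟩ := mem_P_iff.1 hu
    rw [mem_P_iff]
    refine ⟨fun n => hF.comm (hg0 n) (hu0 n), ?_⟩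
    rw [dif_comm]
    have G1 := H.grp (D + D + 1) (by omega)
    apply conjg u _ _ hu (by omega)
    apply G1.mul _ _ (G1.mul _ _ _ _)
    · exact step1' (D + 1) (by omega) g _ hg hu1
    · apply conjg _ _ _ hg (by omega)
      exact step1' (D + 1) (by omega) _ _ (step3.inv _ hu) hg1
    · apply conjg _ _ _ hg (by omega)
      exact P_anti hF (by omega) (H.comm (D + 1) (D + 1) (by omega) (by omega) _ _ hg1 hu1)
  refine ⟨fun d hd => ?_, fun d e hd he g u hg hu => ?_⟩
  · rcases Nat.eq_or_lt_of_le hd with h | h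
    · subst h; exact step3
    · exact H.grp d h
  · rcases Nat.eq_or_lt_of_le hd with h | h
    · subst h
      rcases Nat.eq_or_lt_of_le he with h' | h'
      · subst h'; exact step4 g u hg hu
      · exact step1' e h' g u hg hu
    · rcases Nat.eq_or_lt_of_le he with h' | h'
      · subst h'
        have := step1' d h u g hu hg
        rw [← commutatorElement_inv, show d + D = D + d by ring]
        exact (H.grp _ (by omega)).inv _ this
      · exact H.comm d e h h' g u hg hu

/-- **Lazard–Leibman theorem**: in a nilpotent group the polynomial sequences form a group. -/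
theorem pall (hF : Fil F) {M : ℕ} (hM : F M = ⊥) : PAll F 0 := by
  have : ∀ k D, M ≤ D + k → PAll F D := by
    intro k
    induction k with
    | zero =>
      intro D hD
      have h0 : F D = ⊥ := by
        rw [eq_bot_iff, ← hM]; exact hF.anti (by omega)
      exact pall_base hF h0
    | succ k ih =>
      intro D hD
      exact pall_step hF hM (ih (D + 1) (by omega))
  exact this M 0 (by omega)

end Pool.Agent.V5helper56.OK
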