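import Pool.Agent.V5helper56.OK.Fil
import Pool.Agent.V5helper56.OK.Ab
import Pool.Agent.H77R2.Cls

/-!
# Values of polynomial sequences in torsion-free nilpotent groups
-/

set_option autoImplicit false
set_option linter.unusedSectionVars false

namespace Pool.Agent.V5helper56.OK

open Subgroup
open scoped commutatorElement IsMulCommutative

variable {H : Type*} [Group H]

theorem mk_center {i : ℕ} {x : H} :
    x ∈ Subgroup.upperCentralSeries H (i + 1) ↔
      (QuotientGroup.mk x : H ⧸ Subgroup.upperCentralSeries H i) ∈ center (H ⧸ Subgroup.upperCentralSeries H i) := by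
  rw [Subgroup.mem_upperCentralSeries_succ_iff, mem_center_iff]
  constructor
  · intro h q
    induction q using QuotientGroup.induction_on with
    | H y =>
      have h1 := (QuotientGroup.eq_one_iff _).2 (h y)
      rw [commutatorElement_def] at h1
      simp only [QuotientGroup.mk_mul, QuotientGroup.mk_inv] at h1
      rw [mul_inv_eq_one, mul_inv_eq_iff_eq_mul] at h1
      exact h1.symm
  · intro h y
    rw [← QuotientGroup.eq_one_iff, commutatorElement_def]
    simp only [QuotientGroup.mk_mul, QuotientGroup.mk_inv]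
    rw [mul_inv_eq_one, mul_inv_eq_iff_eq_mul]
    exact (h _).symm

/-- the factors of the upper central series are torsion-free -/
theorem ucs_tf (h0 : ∀ (g : H) (k : ℕ), 0 < k → g ^ k = 1 → g = 1) (i : ℕ) :
    ∀ (g : H) (k : ℕ), 0 < k → g ∈ Subgroup.upperCentralSeries H (i + 1) →
      g ^ k ∈ Subgroup.upperCentralSeries H i → g ∈ Subgroup.upperCentralSeries H i := by
  induction i with
  | zero =>
    intro g k hk _ h
    rw [Subgroup.upperCentralSeries_zero, mem_bot] at h ⊢
    exact h0 g k hk h
  | succ i ih =>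
    intro g k hk hg h
    rw [Subgroup.mem_upperCentralSeries_succ_iff]
    intro y
    have hc : ⁅g, y⁆ ∈ Subgroup.upperCentralSeries H (i + 1) := Subgroup.mem_upperCentralSeries_succ_iff.1 hg y
    refine ih _ k hk hc ?_
    have hcc := mk_center.1 hc
    rw [mem_center_iff] at hcc
    have hpow : ∀ m : ℕ, (QuotientGroup.mk ⁅g ^ m, y⁆ : H ⧸ Subgroup.upperCentralSeries H i) =
        (QuotientGroup.mk ⁅g, y⁆) ^ m := by
      intro m
      induction m with
      | zero =>
        rw [pow_zero, pow_zero, commutatorElement_one_left]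
        rfl
      | succ m ihm =>
        have e1 : ⁅g ^ (m + 1), y⁆ = g * ⁅g ^ m, y⁆ * g⁻¹ * ⁅g, y⁆ := by
          rw [commutatorElement_def, commutatorElement_def, commutatorElement_def, pow_succ']
          group
        rw [e1]
        simp only [QuotientGroup.mk_mul, QuotientGroup.mk_inv]
        rw [ihm, pow_succ]
        congr 1
        rw [mul_inv_eq_iff_eq_mul]
        have hcm : Commute (QuotientGroup.mk g : H ⧸ Subgroup.upperCentralSeries H i)
            (QuotientGroup.mk ⁅g, y⁆) := hcc _
        exact hcm.pow_right m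
    have h1 := (Subgroup.mem_upperCentralSeries_succ_iff.1 h) y
    rw [← QuotientGroup.eq_one_iff, hpow k] at h1
    rw [← QuotientGroup.eq_one_iff, QuotientGroup.mk_pow]
    exact h1

/-- the central case -/
theorem central_zero {Q : Type*} [Group Q]
    (htf : ∀ a ∈ center Q, ∀ k : ℕ, 0 < k → a ^ k = 1 → a = 1) {M : ℕ} {w : ℕ → Q}
    (hw : dif^[M] w = 1) (hc : ∀ n, w n ∈ center Q) {E : Finset ℕ} (hE : M ≤ E.card)
    (h0 : ∀ n ∈ E, w n = 1) (n : ℕ) : w n = 1 := by
  let ψ : ℕ → Additive (center Q) := fun n => Additive.ofMul ⟨w n, hc n⟩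
  have hψ : ∀ (j n : ℕ), ((Additive.toMul (((fwdDiff 1)^[j] ψ) n) : center Q) : Q) =
      (dif^[j] w) n := by
    intro j
    induction j with
    | zero =>
      intro n
      rfl
    | succ j ih =>
      intro n
      rw [Function.iterate_succ_apply', Function.iterate_succ_apply']
      have e1 : (fwdDiff 1 ((fwdDiff 1)^[j] ψ)) n =
          ((fwdDiff 1)^[j] ψ) (n + 1) - ((fwdDiff 1)^[j] ψ) n := rfl
      have e2 : dif (dif^[j] w) n = ((dif^[j] w) n)⁻¹ * (dif^[j] w) (n + 1) := rfl
      rw [e1, e2, toMul_sub, Subgroup.coe_div, ← ih n, ← ih (n + 1), div_eq_mul_inv]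
      have hc := (mem_center_iff.1 (Additive.toMul (((fwdDiff 1)^[j] ψ) (n + 1))).2)
        (((Additive.toMul (((fwdDiff 1)^[j] ψ) n) : center Q) : Q))⁻¹
      exact hc.symm
  have hψM : (fwdDiff 1)^[M] ψ = 0 := by
    funext n
    have h1 := hψ M n
    rw [hw] at h1
    have h3 : Additive.toMul (((fwdDiff 1)^[M] ψ) n) = 1 := Subtype.ext h1
    exact h3
  have htf' : ∀ (k : ℤ) (a : Additive (center Q)), k ≠ 0 → k • a = 0 → a = 0 := by
    intro k a hk ha
    have h1 : (Additive.toMul a : center Q) ^ k.natAbs = 1 := by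
      have h2 : (Additive.toMul a : center Q) ^ k = 1 := ha
      rcases Int.natAbs_eq k with h | h
      · rw [h, zpow_natCast] at h2
        exact h2
      · rw [h, zpow_neg, zpow_natCast, inv_eq_one] at h2
        exact h2
    have h2 := htf (Additive.toMul a : center Q) (Additive.toMul a : center Q).2 k.natAbs
      (Int.natAbs_pos.2 hk) (congrArg Subtype.val h1)
    have h3 : Additive.toMul a = 1 := Subtype.ext h2
    exact h3
  have h1 := newton_zero htf' hψM hE (fun m hm => by
    have h3 : Additive.toMul (ψ m) = 1 := Subtype.ext (h0 m hm)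
    exact h3) n
  exact congrArg Subtype.val h1

theorem dif_map {Q : Type*} [Group Q] (φ : H →* Q) (w : ℕ → H) (j : ℕ) :
    (dif^[j] fun n => φ (w n)) = fun n => φ ((dif^[j] w) n) := by
  induction j with
  | zero => rfl
  | succ j ih =>
    rw [Function.iterate_succ_apply', Function.iterate_succ_apply', ih]
    funext n
    simp only [dif, map_mul, map_inv]

/-- A sequence in a torsion-free nilpotent group whose `M`-th differences are trivial and which
takes some value at `M` places is constant. -/
theorem const_of_zeros (htf : ∀ (g : H) (k : ℕ), 0 < k → g ^ k = 1 → g = 1)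
    [hn : Group.IsNilpotent H] {M : ℕ} (hM : 0 < M) {u : ℕ → H} (hu : dif^[M] u = 1)
    {E : Finset ℕ} (hE : M ≤ E.card) {y : H} (h0 : ∀ n ∈ E, u n = y) (n : ℕ) : u n = y := by
  have hdw : dif (fun n => y⁻¹ * u n) = dif u := by
    funext n
    simp only [dif]
    group
  have hw : dif^[M] (fun n => y⁻¹ * u n) = 1 := by
    obtain ⟨m, rfl⟩ := Nat.exists_eq_succ_of_ne_zero hM.ne'
    rw [Function.iterate_succ_apply] at hu ⊢
    rw [hdw]
    exact hu
  have key : ∀ i : ℕ, (∀ n, y⁻¹ * u n ∈ Subgroup.upperCentralSeries H (i + 1)) →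
      ∀ n, y⁻¹ * u n ∈ Subgroup.upperCentralSeries H i := by
    intro i hi n
    have h1 := central_zero (Q := H ⧸ Subgroup.upperCentralSeries H i) (M := M)
      (w := fun n => QuotientGroup.mk' (Subgroup.upperCentralSeries H i) (y⁻¹ * u n))
      (E := E) ?_ ?_ (fun n => mk_center.1 (hi n)) hE (fun m hm => ?_) n
    · exact (QuotientGroup.eq_one_iff _).1 h1
    · intro a ha k hk hak
      induction a using QuotientGroup.induction_on with
      | H g =>
        have h3 : g ^ k ∈ Subgroup.upperCentralSeries H i := by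
          rw [← QuotientGroup.eq_one_iff, QuotientGroup.mk_pow]
          exact hak
        have h4 := ucs_tf htf i g k hk (mk_center.2 ha) h3
        exact (QuotientGroup.eq_one_iff _).2 h4
    · rw [dif_map, hw]
      funext n
      exact map_one _
    · show QuotientGroup.mk' (Subgroup.upperCentralSeries H i) (y⁻¹ * u m) = 1
      rw [h0 m hm, inv_mul_cancel, map_one]
  obtain ⟨c, hc⟩ := Group.IsNilpotent.nilpotent H
  have hall : ∀ j ≤ c, ∀ n, y⁻¹ * u n ∈ Subgroup.upperCentralSeries H (c - j) := by
    intro j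
    induction j with
    | zero =>
      intro _ n
      rw [Nat.sub_zero, hc]
      exact mem_top _
    | succ j ih =>
      intro hj n
      have h1 : c - j = (c - (j + 1)) + 1 := by omega
      have h2 := ih (by omega)
      rw [h1] at h2
      exact key _ h2 n
  have h1 := hall c le_rfl n
  rw [Nat.sub_self, Subgroup.upperCentralSeries_zero, mem_bot, inv_mul_eq_one] at h1
  exact h1.symm

/-- two-sided polynomial sequences -/
def PolZ (F : ℕ → Subgroup H) (u : ℤ → H) : Prop := ∀ s : ℤ, (fun n : ℕ => u (n + s)) ∈ P F 0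

variable {F : ℕ → Subgroup H}

theorem PolZ.mul (hF : Fil F) {M : ℕ} (hM : F M = ⊥) {u v : ℤ → H} (hu : PolZ F u)
    (hv : PolZ F v) : PolZ F fun n => u n * v n := fun s =>
  ((pall hF hM).grp 0 le_rfl).mul _ _ (hu s) (hv s)

theorem PolZ.inv (hF : Fil F) {M : ℕ} (hM : F M = ⊥) {u : ℤ → H} (hu : PolZ F u) :
    PolZ F fun n => (u n)⁻¹ := fun s => ((pall hF hM).grp 0 le_rfl).inv _ (hu s)

theorem PolZ.one : PolZ F fun _ => (1 : H) := fun _ => one_mem_P 0

theorem PolZ.list (hF : Fil F) {M : ℕ} (hM : F M = ⊥) (d : ℕ) (u : Fin d → ℤ → H)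
    (hu : ∀ i, PolZ F (u i)) : PolZ F fun n => (List.ofFn fun i => u i n).prod := by
  induction d with
  | zero =>
    have : (fun n : ℤ => (List.ofFn fun i : Fin 0 => u i n).prod) = fun _ => (1 : H) := by
      funext n
      simp
    rw [this]
    exact PolZ.one
  | succ d ih =>
    have : (fun n : ℤ => (List.ofFn fun i => u i n).prod) =
        fun n => u 0 n * (List.ofFn fun i : Fin d => u i.succ n).prod := by
      funext n
      rw [List.ofFn_succ, List.prod_cons]
    rw [this]
    exact (hu 0).mul hF hM (ih (fun i => u i.succ) fun i => hu i.succ)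

/-- the slowed down lower central series -/
def FD (H : Type*) [Group H] (D i : ℕ) : Subgroup H := BurnLie.Gam H ((i + D) / (D + 1))

theorem FD_fil (D : ℕ) : Fil (FD H D) where
  top := by
    show BurnLie.Gam H ((0 + D) / (D + 1)) = ⊤
    rw [Nat.div_eq_of_lt (by omega)]
    rfl
  anti := fun h => BurnLie.Gam_anti (Nat.div_le_div_right (by omega))
  comm := by
    intro i j g h hg hh
    refine BurnLie.Gam_comm' hg hh ?_
    rw [← Nat.lt_succ_iff, Nat.div_lt_iff_lt_mul (by omega)]
    have h1 := Nat.div_add_mod (i + D) (D + 1)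
    have h2 := Nat.div_add_mod (j + D) (D + 1)
    have h3 := Nat.mod_lt (i + D) (show 0 < D + 1 by omega)
    have h4 := Nat.mod_lt (j + D) (show 0 < D + 1 by omega)
    nlinarith

theorem FD_bot [hn : Group.IsNilpotent H] (D : ℕ) : ∃ M, FD H D M = ⊥ := by
  obtain ⟨n, hn⟩ := Subgroup.nilpotent_iff_lowerCentralSeries.1 hn
  refine ⟨(n + 1) * (D + 1), ?_⟩
  show BurnLie.Gam H (((n + 1) * (D + 1) + D) / (D + 1)) = ⊥
  have h1 : ((n + 1) * (D + 1) + D) / (D + 1) = n + 1 := by
    rw [Nat.add_comm, Nat.add_mul_div_right _ _ (by omega), Nat.div_eq_of_lt (by omega),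
      Nat.zero_add]
  rw [h1]
  exact hn

theorem dif_pow (t : H) (q : ℕ → ℤ) (j : ℕ) :
    (dif^[j] fun n => t ^ q n) = fun n => t ^ (((fwdDiff 1)^[j] q) n) := by
  induction j with
  | zero => rfl
  | succ j ih =>
    rw [Function.iterate_succ_apply', Function.iterate_succ_apply', ih]
    funext n
    simp only [dif, fwdDiff]
    rw [← zpow_neg, ← zpow_add]
    congr 1
    ring

theorem fwd_cast (f : ℤ → ℤ) (j : ℕ) :
    ((fwdDiff 1)^[j] fun n : ℕ => f (n : ℤ)) = fun n : ℕ => ((fwdDiff 1)^[j] f) (n : ℤ) := by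
  induction j generalizing f with
  | zero => rfl
  | succ j ih =>
    rw [Function.iterate_succ_apply, Function.iterate_succ_apply, ← ih]
    congr 1

theorem PolZ.pow (t : H) (p : Polynomial ℤ) {D : ℕ} (hp : p.natDegree ≤ D) :
    PolZ (FD H D) fun n => t ^ p.eval n := by
  intro s j n
  have e1 : (fun n : ℕ => t ^ p.eval ((n : ℤ) + s)) =
      fun n : ℕ => t ^ (fun n : ℕ => (p.comp (Polynomial.X + Polynomial.C s)).eval (n : ℤ)) n := by
    funext n
    simp
  show (dif^[j] fun n : ℕ => t ^ p.eval ((n : ℤ) + s)) n ∈ _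
  rw [e1, dif_pow]
  by_cases hj : j ≤ D + 1
  · have h1 : FD H D (0 + j) = ⊤ := by
      show BurnLie.Gam H ((0 + j + D) / (D + 1)) = ⊤
      have h2 : (0 + j + D) / (D + 1) ≤ 1 := by
        rw [← Nat.lt_succ_iff, Nat.div_lt_iff_lt_mul (by omega)]
        omega
      rw [eq_top_iff, ← BurnLie.Gam_one]
      exact BurnLie.Gam_anti h2
    rw [h1]
    exact Subgroup.mem_top _
  · have h1 : (p.comp (Polynomial.X + Polynomial.C s)).natDegree < j := by
      rw [Polynomial.natDegree_comp, Polynomial.natDegree_X_add_C, mul_one]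
      omega
    have h2 := Polynomial.fwdDiff_iter_eq_zero_of_degree_lt h1
    rw [fwd_cast (fun z => (p.comp (Polynomial.X + Polynomial.C s)).eval z) j]
    simp only
    rw [h2, Pi.zero_apply, zpow_zero]
    exact one_mem _

/-- **Polynomial sequences take each value a bounded number of times.** -/
theorem count_le (htf : ∀ (g : H) (k : ℕ), 0 < k → g ^ k = 1 → g = 1) [Group.IsNilpotent H]
    (hF : Fil F) {M : ℕ} (hM : F M = ⊥) {u : ℤ → H} (hu : PolZ F u)
    (hnc : ∃ n n', u n ≠ u n') {E : Finset ℤ} {y : H} (h0 : ∀ n ∈ E, u n = y) :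
    E.card ≤ M := by
  classical
  by_contra hcon
  rw [not_le] at hcon
  have hshift : ∀ s : ℤ, (∀ n ∈ E, s ≤ n) → ∀ n, s ≤ n → u n = y := by
    intro s hs n hn
    have h1 : dif^[M + 1] (fun n : ℕ => u (n + s)) = 1 := by
      funext m
      have h2 := hu s (M + 1) m
      have h3 := hF.anti (show M ≤ 0 + (M + 1) by omega) h2
      rw [hM] at h3
      exact h3
    have h2 := const_of_zeros htf (Nat.succ_pos M) h1 (E := E.image fun n => (n - s).toNat)
      (y := y) (by
        rw [Finset.card_image_of_injOn]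
        · exact hcon
        · intro a ha b hb hab
          have := hs a ha
          have := hs b hb
          simp only at hab
          omega) (by
        intro m hm
        obtain ⟨a, ha, rfl⟩ := Finset.mem_image.1 hm
        have h3 := hs a ha
        have h4 : (((a - s).toNat : ℕ) : ℤ) + s = a := by omega
        show u ((((a - s).toNat : ℕ) : ℤ) + s) = y
        rw [h4]
        exact h0 a ha) (n - s).toNat
    have h5 : (((n - s).toNat : ℕ) : ℤ) + s = n := by omega
    have h6 : u ((((n - s).toNat : ℕ) : ℤ) + s) = y := h2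
    rwa [h5] at h6
  obtain ⟨n, n', hne⟩ := hnc
  apply hne
  obtain ⟨b, hb⟩ := (insert n (insert n' E)).bddBelow
  have hb' : ∀ x ∈ insert n (insert n' E), b ≤ x := fun x hx => hb (by exact_mod_cast hx)
  have h1 := hshift b (fun x hx => hb' x (Finset.mem_insert_of_mem (Finset.mem_insert_of_mem hx)))
  rw [h1 n (hb' n (Finset.mem_insert_self _ _)),
    h1 n' (hb' n' (Finset.mem_insert_of_mem (Finset.mem_insert_self _ _)))]

end Pool.Agent.V5helper56.OK
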