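import Pool.Agent.V5helper56.OK.Asm
import Pool.Agent.V5helper56.OK.Nil

/-!
# Polynomial sequences have rare coincidences
-/

set_option autoImplicit false
set_option linter.unusedSectionVars false

open MeasureTheory Filter Topology

noncomputable section

namespace Pool.Agent.V5helper56.OK

open Pool.Agent.TH739.PA (av avr sq mx mx_nonneg two_sided Icc_card mem_sq avr_mono avr_abs
  avr_add avr_nonneg)

theorem sum_sq : Summable fun b : ℤ => (1 : ℝ) / (1 + |(b : ℝ)|) ^ 2 := by
  have h1 : Summable fun n : ℕ => (1 : ℝ) / (1 + (n : ℝ)) ^ 2 := by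
    have h2 := (summable_nat_add_iff 1).2 (Real.summable_one_div_nat_pow (p := 2).2 (by norm_num))
    refine h2.congr fun n => ?_
    push_cast
    rw [add_comm]
  refine Summable.of_nat_of_neg ?_ ?_
  · refine h1.congr fun n => ?_
    rw [Int.cast_natCast, Nat.abs_cast]
  · refine h1.congr fun n => ?_
    rw [Int.cast_neg, Int.cast_natCast, abs_neg, Nat.abs_cast]

/-- few coincidences in each row -/
theorem sum_of_count {q : ℤ × ℤ → Prop} {K : ℕ}
    (h : ∀ (b : ℤ) (E : Finset ℤ), (∀ a ∈ E, q (a, b)) → E.card ≤ K) :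
    Summable fun p : ℤ × ℤ => ind (q p) / (1 + mx p) ^ 2 := by
  classical
  refine summable_of_sum_le (c := K * ∑' b : ℤ, (1 : ℝ) / (1 + |(b : ℝ)|) ^ 2)
    (fun p => div_nonneg (ind_nonneg _) (by have := mx_nonneg p; positivity)) fun s => ?_
  have h1 : ∑ p ∈ s, ind (q p) / (1 + mx p) ^ 2 ≤
      ∑ p ∈ s.filter q, (1 : ℝ) / (1 + |(p.2 : ℝ)|) ^ 2 := by
    rw [Finset.sum_filter]
    refine Finset.sum_le_sum fun p _ => ?_
    by_cases hp : q p
    · rw [if_pos hp, ind_of hp]
      refine div_le_div_of_nonneg_left zero_le_one (by positivity) ?_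
      refine pow_le_pow_left₀ (by positivity) ?_ 2
      have : |(p.2 : ℝ)| ≤ mx p := le_max_right _ _
      linarith
    · rw [if_neg hp, ind_not hp, zero_div]
  refine h1.trans ?_
  rw [← Finset.sum_fiberwise_of_maps_to (s := s.filter q) (t := s.image Prod.snd)
    (g := Prod.snd) (fun p hp => Finset.mem_image_of_mem _ (Finset.mem_filter.1 hp).1)]
  have h2 : ∀ b ∈ s.image Prod.snd,
      ∑ p ∈ (s.filter q).filter (fun p => p.2 = b), (1 : ℝ) / (1 + |(p.2 : ℝ)|) ^ 2 ≤
      K * ((1 : ℝ) / (1 + |(b : ℝ)|) ^ 2) := by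
    intro b _
    have h3 : ∀ p ∈ (s.filter q).filter (fun p => p.2 = b),
        (1 : ℝ) / (1 + |(p.2 : ℝ)|) ^ 2 = (1 : ℝ) / (1 + |(b : ℝ)|) ^ 2 := fun p hp => by
      rw [(Finset.mem_filter.1 hp).2]
    rw [Finset.sum_congr rfl h3, Finset.sum_const, nsmul_eq_mul]
    refine mul_le_mul_of_nonneg_right ?_ (by positivity)
    have h4 : ((s.filter q).filter (fun p => p.2 = b)).card =
        (((s.filter q).filter (fun p => p.2 = b)).image Prod.fst).card := by
      rw [Finset.card_image_of_injOn]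
      intro x hx y hy hxy
      have hx' := (Finset.mem_filter.1 hx).2
      have hy' := (Finset.mem_filter.1 hy).2
      exact Prod.ext hxy (hx'.trans hy'.symm)
    rw [h4]
    have h5 := h b (((s.filter q).filter (fun p => p.2 = b)).image Prod.fst) (fun a ha => by
      obtain ⟨p, hp, rfl⟩ := Finset.mem_image.1 ha
      obtain ⟨hp1, hp2⟩ := Finset.mem_filter.1 hp
      have hp3 := (Finset.mem_filter.1 hp1).2
      rw [← hp2]
      exact hp3)
    exact_mod_cast h5
  refine (Finset.sum_le_sum h2).trans ?_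
  rw [← Finset.mul_sum]
  exact mul_le_mul_of_nonneg_left (sum_sq.sum_le_tsum _ fun b _ => by positivity)
    (Nat.cast_nonneg K)

theorem dens_of_count {q : ℤ → Prop} {K : ℕ} (h : ∀ E : Finset ℤ, (∀ a ∈ E, q a) → E.card ≤ K) :
    Tendsto (fun N : ℕ => avr (Finset.Icc (-(N : ℤ)) N) fun n => ind (q n)) atTop (𝓝 0) := by
  classical
  have h1 : Tendsto (fun N : ℕ => (K : ℝ) / ((N : ℝ) + 1)) atTop (𝓝 0) := by
    have h2 := (tendsto_one_div_add_atTop_nhds_zero_nat (𝕜 := ℝ)).const_mul (K : ℝ)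
    rw [mul_zero] at h2
    refine h2.congr fun N => ?_
    ring
  refine squeeze_zero (fun N => avr_nonneg fun n => ind_nonneg _) (fun N => ?_) h1
  unfold Pool.Agent.TH739.PA.avr
  have h3 : ∑ n ∈ Finset.Icc (-(N : ℤ)) N, ind (q n) ≤ K := by
    have h4 : ∑ n ∈ Finset.Icc (-(N : ℤ)) N, ind (q n) =
        (((Finset.Icc (-(N : ℤ)) N).filter q).card : ℝ) := by
      rw [Finset.card_filter, Nat.cast_sum]
      refine Finset.sum_congr rfl fun n _ => ?_
      by_cases hn : q n
      · rw [ind_of hn, if_pos hn, Nat.cast_one]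
      · rw [ind_not hn, if_neg hn, Nat.cast_zero]
    rw [h4]
    exact_mod_cast h _ fun a ha => (Finset.mem_filter.1 ha).2
  rw [Icc_card, inv_mul_eq_div]
  refine div_le_div₀ (Nat.cast_nonneg K) h3 (by positivity) ?_
  push_cast
  linarith [Nat.cast_nonneg (α := ℝ) N]

variable {G Γ : Type*} [Group G] [Group Γ] [LinearOrder Γ] [MulLeftMono Γ] [MulRightMono Γ]

theorem ord_tf (g : Γ) (k : ℕ) (hk : 0 < k) (h : g ^ k = 1) : g = 1 := by
  by_contra hne
  rcases lt_or_gt_of_ne hne with h1 | h1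
  · have h2 : g ^ k < 1 := pow_lt_one' h1 hk.ne'
    exact absurd h h2.ne
  · have h2 : 1 < g ^ k := one_lt_pow' h1 hk.ne'
    exact absurd h h2.ne'

/-- **Polynomial sequences in nilpotent groups have rare coincidences.** -/
theorem rare_poly [Group.IsNilpotent Γ] (π : G →* Γ) {d : ℕ} {J : Type*} [Fintype J]
    (t : Fin d → G) (P : Fin d → J → Polynomial ℤ)
    (h1 : ∀ j, ∃ n n' : ℤ, π ((List.ofFn fun i => t i ^ (P i j).eval n).prod) ≠
      π ((List.ofFn fun i => t i ^ (P i j).eval n').prod))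
    (h2 : ∀ i j, i ≠ j → ∃ n n' : ℤ,
      π ((List.ofFn fun l => t l ^ (P l i).eval n).prod *
        ((List.ofFn fun l => t l ^ (P l j).eval n).prod)⁻¹) ≠
      π ((List.ofFn fun l => t l ^ (P l i).eval n').prod *
        ((List.ofFn fun l => t l ^ (P l j).eval n').prod)⁻¹)) :
    Rare π fun j n => (List.ofFn fun i => t i ^ (P i j).eval n).prod := by
  classical
  obtain ⟨D, hD⟩ : ∃ D : ℕ, ∀ i j, (P i j).natDegree ≤ D :=
    ⟨Finset.univ.sup fun i => Finset.univ.sup fun j => (P i j).natDegree, fun i j =>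
      (Finset.le_sup (f := fun j => (P i j).natDegree) (Finset.mem_univ j)).trans
        (Finset.le_sup (f := fun i => Finset.univ.sup fun j => (P i j).natDegree)
          (Finset.mem_univ i))⟩
  obtain ⟨M, hM⟩ := FD_bot (H := Γ) D
  have hF := FD_fil (H := Γ) D
  have hpol : ∀ j, PolZ (FD Γ D) fun n => π ((List.ofFn fun i => t i ^ (P i j).eval n).prod) := by
    intro j
    have e1 : (fun n : ℤ => π ((List.ofFn fun i => t i ^ (P i j).eval n).prod)) =
        fun n => (List.ofFn fun i => π (t i) ^ (P i j).eval n).prod := by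
      funext n
      rw [map_list_prod, List.map_ofFn]
      congr 2
      funext i
      exact map_zpow π _ _
    rw [e1]
    exact PolZ.list hF hM d (fun i n => π (t i) ^ (P i j).eval n) fun i =>
      PolZ.pow (π (t i)) (P i j) (hD i j)
  have htf : ∀ (g : Γ) (k : ℕ), 0 < k → g ^ k = 1 → g = 1 := ord_tf
  refine ⟨fun i j γ => sum_of_count (K := M) fun b E hE => ?_,
    fun i j γ hij => dens_of_count (K := M) fun E hE => ?_⟩
  · exact count_le htf hF hM (hpol i) (h1 i) (E := E)
      (y := γ * π (List.ofFn fun l => t l ^ Polynomial.eval b (P l j)).prod)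
      (fun a ha => hE a ha)
  · refine count_le htf hF hM ((hpol i).mul hF hM ((hpol j).inv hF hM)) ?_ (E := E) (y := γ)
      (fun a ha => ?_)
    · obtain ⟨n, n', h⟩ := h2 i j hij
      refine ⟨n, n', ?_⟩
      rw [map_mul, map_inv, map_mul, map_inv] at h
      exact h
    · have h3 : π (List.ofFn fun l => t l ^ (P l i).eval a).prod =
          γ * π (List.ofFn fun l => t l ^ (P l j).eval a).prod := hE a ha
      show π (List.ofFn fun l => t l ^ (P l i).eval a).prod *
        (π (List.ofFn fun l => t l ^ (P l j).eval a).prod)⁻¹ = γ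
      rw [h3, mul_inv_cancel_right]

end Pool.Agent.V5helper56.OK
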