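import Pool.Agent.V5helper56.OK.Conv

/-!
# Extension of the classes of functions, slot by slot
-/

set_option autoImplicit false
set_option linter.unusedSectionVars false

open MeasureTheory Filter Topology

noncomputable section

namespace Pool.Agent.V5helper56.OK

open Pool.Agent.TH784.KE (cm Flow cm_mul meas_shift Base base_le CE prod_abs_le)
open Pool.Agent.TH739.PA (av avr sq mx two_sided Icc_card mem_sq avr_mono avr_abs avr_add
  avr_nonneg avr_mul av_add av_mul av_sub av_norm av_ofReal closed_slot Cls_zero Good BM_add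
  BM_smul avr_const_le)
open Pool.Agent.W761.Gauss (BM)

variable {X : Type} {mA mY mX : MeasurableSpace X} {μ : Measure X} [IsProbabilityMeasure μ]
variable {G Γ : Type*} [Group G] [Group Γ] [LinearOrder Γ] [MulLeftMono Γ] [MulRightMono Γ]
variable {Φ : G →* Equiv.Perm X} {π : G →* Γ} {e : G}
variable {J : Type*} [DecidableEq J]

/-- the box `[-N, N]` -/
abbrev BX (N : ℕ) : Finset ℤ := Finset.Icc (-(N : ℤ)) N

/-- real functions with a window of length one, with centre zero and bounded by one -/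
def Stp (μ : Measure X) (mA : MeasurableSpace X) (Φ : G →* Equiv.Perm X) (e : G)
    (F : X → ℝ) : Prop :=
  ∃ c : G, Measurable[cm mA Φ c] F ∧ (∀ x, |F x| ≤ 1) ∧ CE μ (cm mA Φ (e⁻¹ * c)) F fun _ => 0

/-- convergence to zero -/
def PZ (μ : Measure X) (Φ : G →* Equiv.Perm X) (g : J → ℤ → G) (V : Finset J) (W : ℤ → X → ℂ)
    (F : J → X → ℂ) : Prop :=
  ∀ᵐ x ∂μ, Tendsto (fun N : ℕ => av (BX N) fun n => (∏ v ∈ V, F v (Φ (g v n) x)) * W n x)
    atTop (𝓝 0)

theorem prod_upd {V : Finset J} {k : J} (hk : k ∈ V) (F : J → X → ℂ) (h : X → ℂ) (p : J → G)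
    (x : X) : ∏ v ∈ V, Function.update F k h v (Φ (p v) x) =
      h (Φ (p k) x) * ∏ v ∈ V.erase k, F v (Φ (p v) x) := by
  rw [← Finset.mul_prod_erase _ _ hk, Function.update_self]
  congr 1
  refine Finset.prod_congr rfl fun l hl => ?_
  rw [Function.update_of_ne (Finset.ne_of_mem_erase hl)]

theorem PZ_add {g : J → ℤ → G} {V : Finset J} {W : ℤ → X → ℂ} {F : J → X → ℂ} {k : J}
    (hk : k ∈ V) {f f' : X → ℂ} (hf : PZ μ Φ g V W (Function.update F k f))
    (hf' : PZ μ Φ g V W (Function.update F k f')) :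
    PZ μ Φ g V W (Function.update F k (f + f')) := by
  filter_upwards [hf, hf'] with x hx hx'
  have h := hx.add hx'
  rw [add_zero] at h
  refine h.congr fun N => ?_
  rw [← av_add]
  congr 1
  funext n
  rw [prod_upd hk, prod_upd hk, prod_upd hk, Pi.add_apply]
  ring

theorem PZ_smul {g : J → ℤ → G} {V : Finset J} {W : ℤ → X → ℂ} {F : J → X → ℂ} {k : J}
    (hk : k ∈ V) {f : X → ℂ} (c : ℂ) (hf : PZ μ Φ g V W (Function.update F k f)) :
    PZ μ Φ g V W (Function.update F k (c • f)) := by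
  filter_upwards [hf] with x hx
  have h := hx.const_mul c
  rw [mul_zero] at h
  refine h.congr fun N => ?_
  rw [← av_mul]
  congr 1
  funext n
  rw [prod_upd hk, prod_upd hk, Pi.smul_apply, smul_eq_mul]
  ring

theorem PZ_zero {g : J → ℤ → G} {V : Finset J} {W : ℤ → X → ℂ} {F : J → X → ℂ} {k : J}
    (hk : k ∈ V) : PZ μ Φ g V W (Function.update F k 0) := by
  refine Eventually.of_forall fun x => ?_
  refine tendsto_const_nhds.congr fun N => ?_
  have : (fun n : ℤ => (∏ v ∈ V, Function.update F k 0 v (Φ (g v n) x)) * W n x) =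
      fun _ => 0 := by
    funext n
    rw [prod_upd hk]
    simp
  rw [this]
  unfold Pool.Agent.TH739.PA.av
  simp

/-- the complex span of the functions of `Stp` -/
def SpS (μ : Measure X) (mA : MeasurableSpace X) (Φ : G →* Equiv.Perm X) (e : G) :
    Submodule ℂ (X → ℂ) :=
  Submodule.span ℂ {h | ∃ s : X → ℝ, Stp μ mA Φ e s ∧ h = fun x => (s x : ℂ)}

theorem PZ_span {g : J → ℤ → G} {V : Finset J} {W : ℤ → X → ℂ} {F : J → X → ℂ} {k : J}
    (hk : k ∈ V)
    (H : ∀ s : X → ℝ, Stp μ mA Φ e s → PZ μ Φ g V W (Function.update F k fun x => (s x : ℂ)))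
    {h : X → ℂ} (hh : h ∈ SpS μ mA Φ e) : PZ μ Φ g V W (Function.update F k h) := by
  unfold SpS at hh
  induction hh using Submodule.span_induction with
  | mem x hx =>
    obtain ⟨s, hs, rfl⟩ := hx
    exact H s hs
  | zero => exact PZ_zero hk
  | add x y _ _ hx hy => exact PZ_add hk hx hy
  | smul a x _ hx => exact PZ_smul hk a hx

theorem SpS_BM (hFl : Flow μ Φ) (hA : OFilt mX mA Φ π) {h : X → ℂ} (hh : h ∈ SpS μ mA Φ e) :
    BM h := by
  unfold SpS at hh
  induction hh using Submodule.span_induction with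
  | mem x hx =>
    obtain ⟨s, ⟨c, hs, hb, -⟩, rfl⟩ := hx
    exact ⟨Complex.measurable_ofReal.comp (hs.mono (ocm_le hFl hA c) le_rfl), 1, fun x => by
      rw [Complex.norm_real]
      exact hb x⟩
  | zero => exact ⟨measurable_const, 0, fun x => by simp⟩
  | add x y _ _ hx hy => exact BM_add hx hy
  | smul a x _ hx => exact BM_smul a hx

/-- bound for the remaining factors -/
theorem rest_bound {V : Finset J} {F : J → X → ℂ} (hF : ∀ v ∈ V, BM (F v)) {W : ℤ → X → ℂ}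
    (hW : ∃ C : ℝ, ∀ n x, ‖W n x‖ ≤ C) (g : J → ℤ → G) (k : J) :
    ∃ D : ℝ, 0 ≤ D ∧ ∀ (n : ℤ) (x : X),
      ‖(∏ v ∈ V.erase k, F v (Φ (g v n) x)) * W n x‖ ≤ D := by
  classical
  have h1 : ∀ v : J, ∃ C : ℝ, v ∈ V → ∀ x, ‖F v x‖ ≤ C := by
    intro v
    by_cases hv : v ∈ V
    · obtain ⟨-, C, hC⟩ := hF v hv
      exact ⟨C, fun _ => hC⟩
    · exact ⟨0, fun h => absurd h hv⟩
  choose CF hCF using h1
  obtain ⟨C, hC⟩ := hW
  refine ⟨(∏ v ∈ V.erase k, |CF v|) * |C|, mul_nonneg (Finset.prod_nonneg fun _ _ =>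
    abs_nonneg _) (abs_nonneg _), fun n x => ?_⟩
  rw [norm_mul, norm_prod]
  refine mul_le_mul ?_ ((hC n x).trans (le_abs_self _)) (norm_nonneg _)
    (Finset.prod_nonneg fun _ _ => abs_nonneg _)
  refine Finset.prod_le_prod (fun _ _ => norm_nonneg _) fun v hv => ?_
  exact (hCF v (Finset.mem_of_mem_erase hv) _).trans (le_abs_self _)

/-- uniform closure -/
theorem PZ_unif (hFl : Flow μ Φ) {g : J → ℤ → G} {V : Finset J} {W : ℤ → X → ℂ}
    (hW : ∃ C : ℝ, ∀ n x, ‖W n x‖ ≤ C) {F : J → X → ℂ} (hF : ∀ v ∈ V, BM (F v)) {k : J}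
    (hk : k ∈ V) {h : X → ℂ}
    (H : ∀ ε : ℝ, 0 < ε → ∃ h' : X → ℂ, (∀ᵐ x ∂μ, ‖h x - h' x‖ ≤ ε) ∧
      PZ μ Φ g V W (Function.update F k h')) : PZ μ Φ g V W (Function.update F k h) := by
  obtain ⟨D, hD0, hD⟩ := rest_bound (Φ := Φ) hF hW g k
  choose h' hh' hP using fun i : ℕ => H (1 / ((i : ℝ) + 1)) (by positivity)
  have h1 : ∀ᵐ x ∂μ, ∀ (i : ℕ) (n : ℤ),
      ‖h (Φ (g k n) x) - h' i (Φ (g k n) x)‖ ≤ 1 / ((i : ℝ) + 1) := by
    rw [ae_all_iff]
    intro i
    rw [ae_all_iff]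
    intro n
    exact (hFl _).quasiMeasurePreserving.ae (hh' i)
  filter_upwards [h1, ae_all_iff.mpr hP] with x hx1 hx2
  refine (Cls_zero (atTop : Filter ℕ)).closed _ fun ε hε => ?_
  obtain ⟨i, hi⟩ := exists_nat_one_div_lt (show (0 : ℝ) < ε / (D + 1) by positivity)
  refine ⟨_, hx2 i, Eventually.of_forall fun N => ?_⟩
  rw [← av_sub]
  refine (av_norm _ _).trans ((avr_mono (b := fun _ => ε) fun n _ => ?_).trans
    (avr_const_le hε.le))
  rw [prod_upd hk, prod_upd hk, ← sub_mul, ← sub_mul, mul_assoc, norm_mul]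
  calc ‖h (Φ (g k n) x) - h' i (Φ (g k n) x)‖ *
        ‖(∏ v ∈ V.erase k, F v (Φ (g v n) x)) * W n x‖ ≤ (ε / (D + 1)) * D :=
        mul_le_mul ((hx1 i n).trans hi.le) (hD n x) (norm_nonneg _) (by positivity)
    _ ≤ ε := by
      rw [div_mul_eq_mul_div, div_le_iff₀ (by positivity)]
      nlinarith

/-- closure in the mean -/
theorem PZ_mean (hFl : Flow μ Φ) {g : J → ℤ → G} {V : Finset J} {W : ℤ → X → ℂ}
    (hW : ∃ C : ℝ, ∀ n x, ‖W n x‖ ≤ C) {F : J → X → ℂ} (hF : ∀ v ∈ V, BM (F v)) {k : J}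
    (hk : k ∈ V) (hgood : Good atTop BX μ fun n x => Φ (g k n) x) {h : X → ℂ} (hh : BM h)
    (H : ∀ ε : ℝ, 0 < ε → ∃ h' : X → ℂ, BM h' ∧ ∫ x, ‖h x - h' x‖ ∂μ ≤ ε ∧
      PZ μ Φ g V W (Function.update F k h')) : PZ μ Φ g V W (Function.update F k h) := by
  obtain ⟨D, hD0, hD⟩ := rest_bound (Φ := Φ) hF hW g k
  let Λ : (X → ℂ) → ℕ → X → ℂ := fun h N x => av (BX N) fun n =>
    h (Φ (g k n) x) * ((∏ v ∈ V.erase k, F v (Φ (g v n) x)) * W n x)
  have hΛ : ∀ h x, (fun N : ℕ => av (BX N) fun n =>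
      (∏ v ∈ V, Function.update F k h v (Φ (g v n) x)) * W n x) = fun N => Λ h N x := by
    intro h x
    funext N
    show _ = av _ _
    congr 1
    funext n
    rw [prod_upd hk]
    ring
  have hmain := closed_slot (μ := μ) (Cls_zero (atTop : Filter ℕ))
    (B := BX) (g := fun n x => Φ (g k n) x) (fun n => hFl _) hgood (Λ := Λ) hD0 (h := h)
    (fun ε hε => by
      obtain ⟨h', hB, hi, hP⟩ := H ε hε
      refine ⟨h', hB, hi, ?_⟩
      filter_upwards [hP] with z hz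
      rw [hΛ] at hz
      exact hz) ?_
  · filter_upwards [hmain] with z hz
    rw [hΛ]
    exact hz
  intro h' hh'
  obtain ⟨hhm, Ch, hCh⟩ := id hh
  obtain ⟨hhm', Ch', hCh'⟩ := id hh'
  refine ⟨fun x => ‖h x - h' x‖, (hhm.sub hhm').norm, ⟨Ch + Ch', fun x => ?_⟩,
    fun x => norm_nonneg _, ?_, fun N x => ?_⟩
  · rw [abs_of_nonneg (norm_nonneg _)]
    exact (norm_sub_le _ _).trans (add_le_add (hCh x) (hCh' x))
  · have : 0 ≤ ∫ x, ‖h x - h' x‖ ∂μ := integral_nonneg fun x => norm_nonneg _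
    linarith
  · show ‖av _ _ - av _ _‖ ≤ _
    rw [← av_sub, ← avr_mul]
    refine (av_norm _ _).trans (avr_mono fun n _ => ?_)
    rw [← sub_mul, norm_mul, mul_comm]
    exact mul_le_mul_of_nonneg_right (hD n x) (norm_nonneg _)

/-- **Extension in all slots.** -/
theorem PZ_ext {g : J → ℤ → G} {V : Finset J} {W : ℤ → X → ℂ} (𝒦 : J → Set (X → ℂ))
    (h𝒦 : ∀ v ∈ V, ∀ h ∈ 𝒦 v, BM h) (hSB : ∀ s : X → ℝ, Stp μ mA Φ e s → BM fun x => (s x : ℂ))
    (hstep : ∀ (F : J → X → ℂ) (k : J), k ∈ V → (∀ v ∈ V, BM (F v)) →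
      (∀ s : X → ℝ, Stp μ mA Φ e s → PZ μ Φ g V W (Function.update F k fun x => (s x : ℂ))) →
      ∀ h ∈ 𝒦 k, PZ μ Φ g V W (Function.update F k h))
    (hbase : ∀ F : J → X → ℂ, (∀ v ∈ V, ∃ s : X → ℝ, Stp μ mA Φ e s ∧ F v = fun x => (s x : ℂ)) →
      PZ μ Φ g V W F) (F : J → X → ℂ) (hF : ∀ v ∈ V, F v ∈ 𝒦 v) : PZ μ Φ g V W F := by
  have key : ∀ (B : Finset J), B ⊆ V → ∀ F : J → X → ℂ, (∀ v ∈ B, F v ∈ 𝒦 v) →
      (∀ v ∈ V, v ∉ B → ∃ s : X → ℝ, Stp μ mA Φ e s ∧ F v = fun x => (s x : ℂ)) →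
      PZ μ Φ g V W F := by
    intro B
    induction B using Finset.induction_on with
    | empty =>
      intro _ F _ h2
      exact hbase F fun v hv => h2 v hv (Finset.notMem_empty v)
    | insert k B hk ih =>
      intro hBV F h1 h2
      have hkV : k ∈ V := hBV (Finset.mem_insert_self k B)
      have hBM : ∀ v ∈ V, BM (F v) := by
        intro v hv
        by_cases hvB : v ∈ insert k B
        · exact h𝒦 v hv _ (h1 v hvB)
        · obtain ⟨s, hs, e1⟩ := h2 v hv hvB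
          rw [e1]
          exact hSB s hs
      rw [← Function.update_eq_self k F]
      refine hstep F k hkV hBM (fun s hs => ?_) _ (h1 k (Finset.mem_insert_self k B))
      refine ih ((Finset.subset_insert k B).trans hBV) _ (fun v hv => ?_) fun v hv hvB => ?_
      · have hne : v ≠ k := fun h => hk (h ▸ hv)
        rw [Function.update_of_ne hne]
        exact h1 v (Finset.mem_insert_of_mem hv)
      · by_cases hne : v = k
        · subst hne
          exact ⟨s, hs, by rw [Function.update_self]⟩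
        · rw [Function.update_of_ne hne]
          refine h2 v hv fun h => ?_
          rcases Finset.mem_insert.mp h with h | h
          · exact hne h
          · exact hvB h
  exact key V (Finset.Subset.refl V) F hF fun v hv h => absurd hv h

/-- the base case -/
theorem PZ_base (hFl : Flow μ Φ) (hA : OFilt mX mA Φ π) (hY : Base mY mA Φ)
    (he : IsLeast {g : Γ | 1 < g} (π e)) {V : Finset J} (hV : V.Nonempty) {g : J → ℤ → G}
    (hg : Rare π g) {W : ℤ → X → ℂ} (hW : ∀ n, Measurable[mY] (W n))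
    (hWb : ∃ C : ℝ, ∀ n x, ‖W n x‖ ≤ C) {F : J → X → ℂ}
    (hF : ∀ v ∈ V, ∃ s : X → ℝ, Stp μ mA Φ e s ∧ F v = fun x => (s x : ℂ)) :
    PZ μ Φ g V W F := by
  classical
  have h1 : ∀ v : J, ∃ (s : X → ℝ) (c : G), v ∈ V → ((Measurable[cm mA Φ c] s ∧ (∀ x, |s x| ≤ 1) ∧
      CE μ (cm mA Φ (e⁻¹ * c)) s fun _ => 0) ∧ F v = fun x => (s x : ℂ)) := by
    intro v
    by_cases hv : v ∈ V
    · obtain ⟨s, ⟨c, hs⟩, e1⟩ := hF v hv
      exact ⟨s, c, fun _ => ⟨hs, e1⟩⟩
    · exact ⟨fun _ => 0, 1, fun h => absurd h hv⟩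
  choose s c hs using h1
  obtain ⟨C₀, hC₀⟩ := hWb
  set C : ℝ := |C₀| + 1 with hC
  have hCpos : 0 < C := by positivity
  have hCb : ∀ n x, ‖W n x‖ ≤ C := fun n x =>
    ((hC₀ n x).trans (le_abs_self _)).trans (by rw [hC]; linarith)
  have hreal : ∀ U : ℤ → X → ℝ, (∀ n, Measurable[mY] (U n)) → (∀ n x, |U n x| ≤ 1) →
      ∀ᵐ x ∂μ, Tendsto (fun N : ℕ => av (BX N) fun n =>
        (∏ v ∈ V, F v (Φ (g v n) x)) * ((U n x : ℝ) : ℂ)) atTop (𝓝 0) := by
    intro U hU hU1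
    have h2 := core_real hFl hA hY he hV (c := c) (F := s) (fun w hw => (hs w hw).1.1)
      (fun w hw => (hs w hw).1.2.1) (fun w hw => (hs w hw).1.2.2) hU hU1 hg
    filter_upwards [h2] with x hx
    have h5 := (Complex.continuous_ofReal.tendsto _).comp hx
    rw [Complex.ofReal_zero] at h5
    refine h5.congr fun N => ?_
    rw [Function.comp_apply, ← av_ofReal]
    congr 1
    funext n
    rw [Complex.ofReal_mul, Complex.ofReal_prod]
    congr 1
    refine Finset.prod_congr rfl fun v hv => ?_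
    rw [(hs v hv).2]
  have hre := hreal (fun n x => (W n x).re / C)
    (fun n => (Complex.measurable_re.comp (hW n)).div_const _) (fun n x => by
      rw [abs_div, abs_of_pos hCpos, div_le_one hCpos]
      exact (Complex.abs_re_le_norm _).trans (hCb n x))
  have him := hreal (fun n x => (W n x).im / C)
    (fun n => (Complex.measurable_im.comp (hW n)).div_const _) (fun n x => by
      rw [abs_div, abs_of_pos hCpos, div_le_one hCpos]
      exact (Complex.abs_im_le_norm _).trans (hCb n x))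
  filter_upwards [hre, him] with x hx1 hx2
  have h6 := (hx1.const_mul (C : ℂ)).add (hx2.const_mul ((C : ℂ) * Complex.I))
  rw [mul_zero, mul_zero, add_zero] at h6
  refine h6.congr fun N => ?_
  rw [← av_mul, ← av_mul, ← av_add]
  congr 1
  funext n
  have hC' : (C : ℂ) ≠ 0 := by exact_mod_cast hCpos.ne'
  have e2 : (C : ℂ) * ((((W n x).re / C : ℝ) : ℝ) : ℂ) + (C : ℂ) * Complex.I *
      ((((W n x).im / C : ℝ) : ℝ) : ℂ) = W n x := by
    push_cast
    field_simp
    exact Complex.re_add_im (W n x) |>.symm.trans (by ring) |>.symm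
  calc (C : ℂ) * ((∏ v ∈ V, F v (Φ (g v n) x)) * ((((W n x).re / C : ℝ)) : ℂ)) +
      (C : ℂ) * Complex.I * ((∏ v ∈ V, F v (Φ (g v n) x)) * ((((W n x).im / C : ℝ)) : ℂ)) =
      (∏ v ∈ V, F v (Φ (g v n) x)) * ((C : ℂ) * ((((W n x).re / C : ℝ) : ℝ) : ℂ) +
        (C : ℂ) * Complex.I * ((((W n x).im / C : ℝ) : ℝ) : ℂ)) := by ring
    _ = _ := by rw [e2]

end Pool.Agent.V5helper56.OK
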