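import Pool.Agent.V5helper56.OK.RareP

/-!
# The theorem for `L^∞`
-/

set_option autoImplicit false
set_option linter.unusedSectionVars false

open MeasureTheory Filter Topology
open scoped ENNReal

noncomputable section

namespace Pool.Agent.V5helper56.OK

open Pool.Agent.TH784.KE (cm Flow cm_mul meas_shift Base base_le CE prod_abs_le exists_CE Van
  int_abs_le_norm exists_cond)
open Pool.Agent.TH739.PA (av avr sq mx two_sided Icc_card mem_sq avr_mono avr_abs avr_add
  avr_nonneg avr_mul av_add av_mul av_sub av_norm av_ofReal closed_slot Cls_zero Good BM_add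
  BM_smul avr_const_le good_pow)
open Pool.Agent.W761.Gauss (BM BM_of_memLp)

variable {X : Type} {mA mY mX : MeasurableSpace X} {μ : Measure X} [IsProbabilityMeasure μ]
variable {G Γ : Type*} [Group G] [Group Γ] [LinearOrder Γ] [MulLeftMono Γ] [MulRightMono Γ]
variable {Φ : G →* Equiv.Perm X} {π : G →* Γ} {e : G}
variable {J : Type*} [DecidableEq J] [Fintype J]

/-- linear sequences are good -/
theorem good_linear (hFl : Flow μ Φ) (b c : G) :
    Good atTop BX μ fun (n : ℤ) (x : X) => Φ (b ^ n * c) x := by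
  intro H hH hC
  have h1 := good_pow (Φ b) (hFl b) (by
    have := hFl b⁻¹
    rw [map_inv] at this
    exact this) H hH hC
  have h2 := (hFl c).quasiMeasurePreserving.ae h1
  filter_upwards [h2] with x hx
  obtain ⟨L, hL⟩ := hx
  refine ⟨L, hL.congr fun N => ?_⟩
  congr 1
  funext n
  rw [map_mul, map_zpow, Equiv.Perm.mul_apply]

/-- **Main theorem.** -/
theorem main_Linf (hFl : Flow μ Φ) (hA : OFilt mX mA Φ π) (hY : Base mY mA Φ)
    (he : IsLeast {g : Γ | 1 < g} (π e)) (hS : Spn μ mA mY Φ e) {g : J → ℤ → G} (hg : Rare π g)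
    {W : ℤ → X → ℂ} (hW : ∀ n, Measurable[mY] (W n)) (hWb : ∃ C : ℝ, ∀ n x, ‖W n x‖ ≤ C)
    {f : J → X → ℂ} (hf : ∀ v, MemLp (f v) ∞ μ)
    (hslot : ∀ v, (∃ b c : G, ∀ n, g v n = b ^ n * c) ∨
      Good atTop BX μ (fun n x => Φ (g v n) x) ∨
      ∀ ε : ℝ, 0 < ε → ∃ h ∈ Win μ mA mY Φ e, ∀ᵐ x ∂μ, ‖f v x - h x‖ ≤ ε) :
    ∀ᵐ x ∂μ, Tendsto (fun N : ℕ => ((2 * N + 1 : ℕ) : ℂ)⁻¹ *
      ∑ n ∈ Finset.Icc (-(N : ℤ)) (N : ℤ), W n x * (∏ j, f j (Φ (g j n) x) -
        ∏ j, (μ[f j | mY]) (Φ (g j n) x))) atTop (𝓝 0) := by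
  have hYX : mY ≤ mX := hY.le.trans hA.le
  choose f' hf' hff using fun j => BM_of_memLp (hf j)
  choose ef hef hefY hee hfe using fun j =>
    exists_cond (μ := μ) hYX (hf' j)
  have hslot' : ∀ v, Good atTop BX μ (fun n x => Φ (g v n) x) ∨
      ∀ ε : ℝ, 0 < ε → ∃ h ∈ SpS μ mA Φ e, ∀ᵐ x ∂μ, ‖(f' v x - ef v x) - h x‖ ≤ ε := by
    intro v
    rcases hslot v with ⟨b, c, hbc⟩ | h | h
    · left
      have e1 : (fun (n : ℤ) (x : X) => Φ (g v n) x) = fun n x => Φ (b ^ n * c) x := by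
        funext n x
        rw [hbc n]
      rw [e1]
      exact good_linear hFl b c
    · exact Or.inl h
    · right
      intro ε hε
      refine unif_centred hFl hA hY (hf' v) (hef v) (hefY v) (hfe v) (fun δ hδ => ?_) hε
      obtain ⟨h', hh', hh⟩ := h δ hδ
      refine ⟨h', hh', ?_⟩
      filter_upwards [hh, hff v] with x hx1 hx2
      rw [← hx2]
      exact hx1
  have hmain := char_rare hFl hA hY he hS hg hW hWb hf' hef hefY hfe hslot'
  have h1 : ∀ᵐ x ∂μ, ∀ (n : ℤ) (j : J), f j (Φ (g j n) x) = f' j (Φ (g j n) x) := by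
    rw [ae_all_iff]
    intro n
    rw [ae_all_iff]
    intro j
    exact (hFl _).quasiMeasurePreserving.ae (hff j)
  have h2 : ∀ᵐ x ∂μ, ∀ (n : ℤ) (j : J),
      (μ[f j | mY]) (Φ (g j n) x) = ef j (Φ (g j n) x) := by
    rw [ae_all_iff]
    intro n
    rw [ae_all_iff]
    intro j
    have h3 : μ[f j | mY] =ᵐ[μ] ef j := (condExp_congr_ae (hff j)).trans (hee j).symm
    exact (hFl _).quasiMeasurePreserving.ae h3
  filter_upwards [hmain, h1, h2] with x hx hx1 hx2
  refine hx.congr fun N => ?_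
  unfold Pool.Agent.TH739.PA.av
  rw [Icc_card]
  congr 1
  refine Finset.sum_congr rfl fun n _ => ?_
  show W n x * (∏ v, f' v (Φ (g v n) x) - ∏ v, ef v (Φ (g v n) x)) = _
  rw [Finset.prod_congr rfl fun j _ => hx1 n j, Finset.prod_congr rfl fun j _ => hx2 n j]

/-- the functions of `SpS` have finitely many innovations -/
theorem SpS_le_Win (hFl : Flow μ Φ) (hA : OFilt mX mA Φ π) {h : X → ℂ}
    (hh : h ∈ SpS μ mA Φ e) : h ∈ Win μ mA mY Φ e := by
  classical
  unfold SpS at hh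
  induction hh using Submodule.span_induction with
  | mem x hx =>
    obtain ⟨s, ⟨c, hs, hb, hs0⟩, rfl⟩ := hx
    have hsX : Measurable s := hs.mono (ocm_le hFl hA c) le_rfl
    refine Submodule.subset_span (Or.inl ⟨⟨1, fun x => ?_⟩, c,
      Complex.measurable_ofReal.comp hs, ?_⟩)
    · rw [Complex.norm_real]
      exact hb x
    · symm
      have hm' := ocm_le hFl hA (e⁻¹ * c)
      have hsi : Integrable (fun x => (s x : ℂ)) μ :=
        Integrable.of_bound (Complex.measurable_ofReal.comp hsX).aestronglyMeasurable 1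
          (Eventually.of_forall fun x => by
            rw [Complex.norm_real]
            exact hb x)
      refine ae_eq_condExp_of_forall_setIntegral_eq hm' hsi (fun B _ _ => integrableOn_zero)
        (fun B hB _ => ?_) stronglyMeasurable_zero.aestronglyMeasurable
      have h1 := hs0.2.2 (B.indicator fun _ => 1) (measurable_const.indicator hB) ⟨1, fun x => by
        by_cases hx : x ∈ B <;> simp [hx]⟩
      have e1 : (fun x => (s x - 0) * B.indicator (fun _ => (1 : ℝ)) x) = B.indicator s := by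
        funext x
        by_cases hx : x ∈ B <;> simp [hx]
      rw [e1, integral_indicator (hm' _ hB)] at h1
      have h2 := integral_ofReal (𝕜 := ℂ) (f := s) (μ := μ.restrict B)
      rw [h1] at h2
      have h3 : ∫ x in B, (s x : ℂ) ∂μ = 0 := h2.trans (by simp)
      rw [h3]
      simp
  | zero => exact zero_mem _
  | add x y _ _ hx hy => exact add_mem hx hy
  | smul a x _ hx => exact Submodule.smul_mem _ a hx

/-- **Density of the functions with finitely many innovations.** -/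
theorem win_dense (hFl : Flow μ Φ) (hA : OFilt mX mA Φ π) (hY : Base mY mA Φ)
    (he : IsLeast {g : Γ | 1 < g} (π e)) (hS : Spn μ mA mY Φ e) {f : X → ℂ}
    (hf : MemLp f ∞ μ) {ε : ℝ} (hε : 0 < ε) :
    ∃ h ∈ Win μ mA mY Φ e, ∫ x, ‖f x - h x‖ ∂μ ≤ ε := by
  have hYX : mY ≤ mX := hY.le.trans hA.le
  obtain ⟨f', hf', hff⟩ := BM_of_memLp hf
  obtain ⟨ef, hef, hefY, hee, hfe⟩ := exists_cond (μ := μ) hYX hf'
  have hBM : BM (fun x => f' x - ef x) := by
    obtain ⟨m₁, C₁, b₁⟩ := hf'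
    obtain ⟨m₂, C₂, b₂⟩ := hef
    exact ⟨m₁.sub m₂, C₁ + C₂, fun x => (norm_sub_le _ _).trans (add_le_add (b₁ x) (b₂ x))⟩
  obtain ⟨h, hh, hi⟩ := dense_complex hFl hA hY he hS hBM hfe hε
  refine ⟨h + ef, add_mem (SpS_le_Win (π := π) hFl hA hh)
    (Submodule.subset_span (Or.inr ⟨hefY, hef.2⟩)), ?_⟩
  refine le_trans (le_of_eq ?_) hi
  apply integral_congr_ae
  filter_upwards [hff] with x hx
  rw [hx, Pi.add_apply]
  congr 1
  ring

end Pool.Agent.V5helper56.OK
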